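import Pool.Agent.Lib.MP_8317a8_co.PL.Dust

set_option autoImplicit false

/-!
# PL-Blk: the blocks

* `blk_closed`: a vertex of `W \ A` with `≥ s` neighbours in `A` could be attached
  (`RRig.attach`), against maximality.
* `blk_inter`: otherwise `RRig.glue` and maximality of both.
* `blks_card`: suppose there are more than `l` blocks; take a set `F` of exactly `l` of them.
  Claim for `S ⊆ F` (`Finset.induction_on`): there is an independent `I ⊆ W` (in the link of `w`)
  with `|I| = |S|` such that every `r ∈ I` lies in a member of `S` and in no other member of `F`.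
  Insert `A ∉ S`: `A` has at least `L = 3 s l` elements; at most `(l-1)(s-1)` lie in other members
  of `F` (`blk_inter`), and every `r ∈ I` (not in `A`) has fewer than `s` neighbours in `A`
  (`blk_closed`), so a new `r ∈ A` exists.  For `S = F` this contradicts `Dense`.
  (Independent: `∀ a ∈ I, ∀ b ∈ I, a ≠ b → ¬ Tri G w a b`; `Tri.swap23`.)
* `blks_cover`: `X \ ⋃ blks` is disjoint from all relatively rigid sets with `≥ L` elements (each
  lies in a block, `exists_max_rrig`), so `dust` applies.
-/

namespace KalaiRank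

open Finset Module

variable {K : Type*} [Field K] {V : Type*} [DecidableEq V] {s : ℕ}
  {G : Finset (Finset V)} {x : V → Fin s → K} {w : V} {W : Finset V} {l L : ℕ}

theorem mem_blks {A : Finset V} : A ∈ blks G x w W L ↔ IsBlk G x w W L A := by
  classical
  unfold blks
  rw [Finset.mem_filter, Finset.mem_powerset]
  exact ⟨fun h => h.2, fun h => ⟨h.1, h⟩⟩

theorem blk_closed (hx : GenPos x) {A : Finset V} (hA : IsBlk G x w W L A) : Clo G s w W A := by
  intro v hv hvA
  by_contra hlt
  push Not at hlt
  have h1 : RRig G x w W (A ∪ {v}) := by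
    refine hA.2.2.1.attach hx hA.1 (Finset.singleton_subset_iff.2 hv) ?_
    intro t ht
    rw [Finset.mem_singleton] at ht
    rw [ht]
    exact Or.inr hlt
  have h2 := hA.2.2.2 (A ∪ {v}) Finset.subset_union_left
    (Finset.union_subset hA.1 (Finset.singleton_subset_iff.2 hv)) h1
  apply hvA
  rw [← h2]
  exact Finset.mem_union_right _ (Finset.mem_singleton_self v)

theorem blk_inter (hx : GenPos x) {A B : Finset V} (hA : IsBlk G x w W L A)
    (hB : IsBlk G x w W L B) (hne : A ≠ B) : (A ∩ B).card < s := by
  by_contra hlt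
  push Not at hlt
  have h1 : RRig G x w W (A ∪ B) := hA.2.2.1.glue hx hB.2.2.1 hlt
  have h2 := hA.2.2.2 (A ∪ B) Finset.subset_union_left (Finset.union_subset hA.1 hB.1) h1
  have h3 := hB.2.2.2 (A ∪ B) Finset.subset_union_right (Finset.union_subset hA.1 hB.1) h1
  exact hne (h2.symm.trans h3)

theorem blks_card (hx : GenPos x) (hs : 1 ≤ s) (hl : 1 ≤ l) (hD : Dense G w W l)
    (hL : 3 * s * l ≤ L) : (blks G x w W L).card ≤ l := by
  classical
  by_contra hlt
  push Not at hlt
  obtain ⟨F, hF, hFc⟩ := Finset.exists_subset_card_eq hlt.le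
  have hFb : ∀ A ∈ F, IsBlk G x w W L A := fun A hA => mem_blks.1 (hF hA)
  have key : ∀ S : Finset (Finset V), S ⊆ F → ∃ I ⊆ W, I.card = S.card ∧
      (∀ a ∈ I, ∀ b ∈ I, a ≠ b → ¬ Tri G w a b) ∧
      ∀ r ∈ I, ∃ A ∈ S, r ∈ A ∧ ∀ B ∈ F, B ≠ A → r ∉ B := by
    intro S
    induction S using Finset.induction_on with
    | empty =>
      intro _
      exact ⟨∅, Finset.empty_subset _, rfl, by simp, by simp⟩
    | insert A S hAS ih =>
      intro hins
      have hAF : A ∈ F := hins (Finset.mem_insert_self A S)
      have hSF : S ⊆ F := (Finset.subset_insert A S).trans hins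
      obtain ⟨I, hIW, hIc, hIind, hIloc⟩ := ih hSF
      have hScard : S.card < l := by
        have h1 := Finset.card_le_card hins
        rw [Finset.card_insert_of_notMem hAS, hFc] at h1
        omega
      -- the elements of `I` are not in `A`
      have hIA : ∀ r ∈ I, r ∉ A := by
        intro r hr
        obtain ⟨B, hB, hrB, hother⟩ := hIloc r hr
        exact hother A hAF (fun h => hAS (h ▸ hB))
      obtain ⟨bad1, hb1⟩ : ∃ X, X = (F.erase A).biUnion (fun B => A ∩ B) := ⟨_, rfl⟩
      obtain ⟨bad2, hb2⟩ : ∃ X, X = I.biUnion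
        (fun r => A.filter (fun t => t ≠ r ∧ Tri G w r t)) := ⟨_, rfl⟩
      have hc1 : bad1.card ≤ l * s := by
        rw [hb1]
        refine (Finset.card_biUnion_le_card_mul _ _ s ?_).trans ?_
        · intro B hB
          rw [Finset.mem_erase] at hB
          exact (blk_inter hx (hFb A hAF) (hFb B hB.2) (Ne.symm hB.1)).le
        · apply Nat.mul_le_mul_right
          rw [Finset.card_erase_of_mem hAF, hFc]
          exact Nat.sub_le _ _
      have hc2 : bad2.card ≤ l * s := by
        rw [hb2]
        refine (Finset.card_biUnion_le_card_mul _ _ s ?_).trans ?_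
        · intro r hr
          exact (blk_closed hx (hFb A hAF) r (hIW hr) (hIA r hr)).le
        · apply Nat.mul_le_mul_right
          rw [hIc]
          exact hScard.le
      have hcA : (bad1 ∪ bad2).card < A.card := by
        refine lt_of_le_of_lt (Finset.card_union_le _ _) ?_
        have h1 : L ≤ A.card := (hFb A hAF).2.1
        have h2 : 0 < l * s := Nat.mul_pos (by omega) (by omega)
        have h3 : 3 * s * l = 3 * (l * s) := by ring
        omega
      obtain ⟨r, hrA, hrbad⟩ := Finset.exists_mem_notMem_of_card_lt_card hcA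
      rw [Finset.mem_union, not_or] at hrbad
      have hrI : r ∉ I := fun h => hIA r h hrA
      have hr1 : ∀ B ∈ F, B ≠ A → r ∉ B := by
        intro B hB hBA hrB
        apply hrbad.1
        rw [hb1, Finset.mem_biUnion]
        exact ⟨B, Finset.mem_erase.2 ⟨hBA, hB⟩, Finset.mem_inter.2 ⟨hrA, hrB⟩⟩
      have hr2 : ∀ a ∈ I, ¬ Tri G w a r := by
        intro a ha htri
        apply hrbad.2
        rw [hb2, Finset.mem_biUnion]
        refine ⟨a, ha, Finset.mem_filter.2 ⟨hrA, ?_, htri⟩⟩
        rintro rfl
        exact hrI ha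
      refine ⟨insert r I, ?_, ?_, ?_, ?_⟩
      · exact Finset.insert_subset ((hFb A hAF).1 hrA) hIW
      · rw [Finset.card_insert_of_notMem hrI, Finset.card_insert_of_notMem hAS, hIc]
      · intro a ha b hb hab htri
        rw [Finset.mem_insert] at ha hb
        rcases ha with rfl | ha
        · rcases hb with rfl | hb
          · exact hab rfl
          · exact hr2 b hb htri.swap23
        · rcases hb with rfl | hb
          · exact hr2 a ha htri
          · exact hIind a ha b hb hab htri
      · intro q hq
        rw [Finset.mem_insert] at hq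
        rcases hq with rfl | hq
        · exact ⟨A, Finset.mem_insert_self _ _, hrA, hr1⟩
        · obtain ⟨B, hB, h1, h2⟩ := hIloc q hq
          exact ⟨B, Finset.mem_insert_of_mem hB, h1, h2⟩
  obtain ⟨I, hIW, hIc, hIind, -⟩ := key F (Finset.Subset.refl F)
  obtain ⟨a, ha, b, hb, hab, htri⟩ := hD I hIW (by rw [hIc, hFc])
  exact hIind a ha b hb hab htri

theorem blks_cover [Fintype V] (hx : GenPos x) (hgen : Generic x) (hs : 1 ≤ s) (hl : 1 ≤ l)
    (hD : Dense G w W l) (hL : 3 * s * l ≤ L) (X : Finset V) (hX : X ⊆ W) :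
    X.card ≤ ∑ A ∈ blks G x w W L, (X ∩ A).card + (s * l + s * (s * l) + L * l) := by
  classical
  obtain ⟨Y, hY⟩ : ∃ Y, Y = X \ (blks G x w W L).biUnion (fun A => A) := ⟨_, rfl⟩
  have hYX : Y ⊆ X := by
    rw [hY]
    exact Finset.sdiff_subset
  have h1 : Y.card ≤ s * l + s * (s * l) + L * l := by
    refine dust hx hgen hs hl hD ?_ (hYX.trans hX) ?_
    · refine le_trans ?_ hL
      have : 3 * s * l = 3 * (s * l) := by ring
      omega
    · intro A hAW hAr hAL
      obtain ⟨A', hAA', hA'W, hA'r, hmax⟩ := exists_max_rrig G x w W W A hAW hAr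
      have hblk : A' ∈ blks G x w W L :=
        mem_blks.2 ⟨hA'W, hAL.trans (Finset.card_le_card hAA'), hA'r, hmax⟩
      rw [Finset.disjoint_left]
      intro a haA haY
      rw [hY, Finset.mem_sdiff] at haY
      apply haY.2
      rw [Finset.mem_biUnion]
      exact ⟨A', hblk, hAA' haA⟩
  have h2 : X ⊆ (blks G x w W L).biUnion (fun A => X ∩ A) ∪ Y := by
    intro a ha
    rw [Finset.mem_union, Finset.mem_biUnion]
    by_cases h : a ∈ (blks G x w W L).biUnion (fun A => A)
    · rw [Finset.mem_biUnion] at h
      obtain ⟨A, hA, haA⟩ := h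
      exact Or.inl ⟨A, hA, Finset.mem_inter.2 ⟨ha, haA⟩⟩
    · right
      rw [hY, Finset.mem_sdiff]
      exact ⟨ha, h⟩
  refine (Finset.card_le_card h2).trans ((Finset.card_union_le _ _).trans ?_)
  exact Nat.add_le_add Finset.card_biUnion_le h1

end KalaiRank
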