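import Pool.Agent.Lib.MP_8317a8_co.PL.Dom
import Pool.Agent.Lib.MP_8317a8_co.Ramsey

set_option autoImplicit false

/-!
# PL-Core2: the combinatorial core with polynomial bounds

`A(w) = (U \ {w}) \ T w`.

* `noncomp`: let `w, w' ∈ S'`, `z w ≠ z w'`, `¬ Tri G w (z w) (z w')`, `¬ Tri G w' (z w') (z w)`
  (so `w ≠ w'`).  If `w' ∈ T w` or `w ∈ T w'` fine; otherwise `w, w', z w, z w'` are distinct and
  `Tri G w w' (z w)` or `Tri G w w' (z w')`; in the first case `w' ∈ A(w)` is a neighbour of `z w` in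
  the link of `w`, in the second case `w ∈ A(w')` is a neighbour of `z w'` in the link of `w'`.  So
  every such pair `(w, w')` belongs to a set with at most `e + s` choices for `w'` given `w`, or for
  `w` given `w'`.
* `bad_pair`: if `w0` is in the set, every other `w` in the set satisfies `Tri G w0 w a` or
  `Tri G w0 w b` (4-set `w0, w, a, b`), and `w ∈ A(w0)` or `w ∈ T w0`: at most
  `1 + (s-1) + (s-1) + e`.
* `core2`: apply `rounds` for every `p` to `z p`, `t a j := Tri G a (z p a) (z p j)`, `c = s + e`,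
  `k = 7 s`, `m = 2 s`: `J p`, `E p`.  `Z = ⋃ p, (J p).image (z p)` has at most
  `(s+1) * 2 s * 7 s ≤ 28 s^3` elements.  `2^(7s) |⋃ E p| ≤ 4 s^2 (|W0| + 2^(7s+1) (s + e))`, with
  `128 s^2 ≤ 2^(7s)`: `32 |⋃ E p| ≤ |W0| + 256 s^2 (s + e)`.  The union over `a ≠ b ∈ Z` of the sets
  of `bad_pair` has at most `784 s^6 * 2 (s + e)` elements.  So some `w ∈ W0` is in none of these
  (`|W0| ≥ 4096 s^6 (s + e)`).  `Y = Z ∩ T w` is a clique in the link of `w`.  For `p`: if
  `z p w ∈ (J p).image (z p)` then `z p w ∈ Y`.  Otherwise there are at least `2 s` values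
  `y = z p j`, `j ∈ J p`, with `Tri G w (z p w) y`; they lie in `Z`, differ from `z p w`, at most
  one is equal to `w`, fewer than `s` are in `A(w)` (`hcl`), so at least `s` lie in `T w`.
  (`z p j ∈ T j ⊆ U`.)
-/

namespace KalaiRank

open Finset

variable {V : Type*} [DecidableEq V] {G : Finset (Finset V)} {U W0 : Finset V} {s e : ℕ}

theorem noncomp (hG : Covers G) (hW : W0 ⊆ U) (T : V → Finset V) (z : V → V)
    (hTU : ∀ w ∈ W0, T w ⊆ U.erase w)
    (he : ∀ w ∈ W0, (W0.filter (fun w' => w' ∈ T w)).card ≤ e)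
    (hcl : ∀ w ∈ W0, ∀ t ∈ T w,
      ((U.erase w).filter (fun a => a ∉ T w ∧ Tri G w t a)).card < s)
    (hz : ∀ w ∈ W0, z w ∈ T w) (S' : Finset V) (hS : S' ⊆ W0) :
    ((S' ×ˢ S').filter (fun p => z p.1 ≠ z p.2 ∧ ¬ Tri G p.1 (z p.1) (z p.2) ∧
      ¬ Tri G p.2 (z p.2) (z p.1))).card ≤ 2 * (s + e) * S'.card := by
  set A : V → Finset V := fun w => (W0.filter (fun w' => w' ∈ T w)) ∪
    ((U.erase w).filter (fun a => a ∉ T w ∧ Tri G w (z w) a)) with hA
  have hAc : ∀ w ∈ S', (A w).card ≤ s + e := by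
    intro w hw
    have h1 := he w (hS hw)
    have h2 := hcl w (hS hw) (z w) (hz w (hS hw))
    have h3 := Finset.card_union_le (W0.filter (fun w' => w' ∈ T w))
      ((U.erase w).filter (fun a => a ∉ T w ∧ Tri G w (z w) a))
    simp only [hA]
    omega
  have hsub : (S' ×ˢ S').filter (fun p => z p.1 ≠ z p.2 ∧ ¬ Tri G p.1 (z p.1) (z p.2) ∧
      ¬ Tri G p.2 (z p.2) (z p.1)) ⊆
      (S'.biUnion fun w => (A w).image fun w' => (w, w')) ∪
      (S'.biUnion fun w' => (A w').image fun w => (w, w')) := by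
    rintro ⟨w, w'⟩ hp
    rw [Finset.mem_filter, Finset.mem_product] at hp
    obtain ⟨⟨hw, hw'⟩, h1, h2, h3⟩ := hp
    simp only at hw hw' h1 h2 h3
    have hne : w ≠ w' := fun h => h1 (by rw [h])
    rw [Finset.mem_union]
    by_cases c1 : w' ∈ T w
    · left
      rw [Finset.mem_biUnion]
      exact ⟨w, hw, Finset.mem_image.2 ⟨w', Finset.mem_union_left _
        (Finset.mem_filter.2 ⟨hS hw', c1⟩), rfl⟩⟩
    by_cases c2 : w ∈ T w'
    · right
      rw [Finset.mem_biUnion]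
      exact ⟨w', hw', Finset.mem_image.2 ⟨w, Finset.mem_union_left _
        (Finset.mem_filter.2 ⟨hS hw, c2⟩), rfl⟩⟩
    have hzw := hz w (hS hw)
    have hzw' := hz w' (hS hw')
    have d1 : w ≠ z w := (Finset.ne_of_mem_erase (hTU w (hS hw) hzw)).symm
    have d2 : w' ≠ z w' := (Finset.ne_of_mem_erase (hTU w' (hS hw') hzw')).symm
    have d3 : w ≠ z w' := fun h => c2 (h ▸ hzw')
    have d4 : w' ≠ z w := fun h => c1 (h ▸ hzw)
    rcases hG w w' (z w) (z w') hne d1 d3 d4 d2 h1 with h | h | h | h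
    · left
      rw [Finset.mem_biUnion]
      exact ⟨w, hw, Finset.mem_image.2 ⟨w', Finset.mem_union_right _
        (Finset.mem_filter.2 ⟨Finset.mem_erase.2 ⟨hne.symm, hW (hS hw')⟩, c1, h.swap23⟩), rfl⟩⟩
    · right
      rw [Finset.mem_biUnion]
      exact ⟨w', hw', Finset.mem_image.2 ⟨w, Finset.mem_union_right _
        (Finset.mem_filter.2 ⟨Finset.mem_erase.2 ⟨hne, hW (hS hw)⟩, c2, h.swap12.swap23⟩), rfl⟩⟩
    · exact absurd h h2
    · exact absurd h.swap23 h3
  refine (Finset.card_le_card hsub).trans ((Finset.card_union_le _ _).trans ?_)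
  have h1 : (S'.biUnion fun w => (A w).image fun w' => (w, w')).card ≤ S'.card * (s + e) :=
    Finset.card_biUnion_le_card_mul _ _ _ fun w hw => Finset.card_image_le.trans (hAc w hw)
  have h2 : (S'.biUnion fun w' => (A w').image fun w => (w, w')).card ≤ S'.card * (s + e) :=
    Finset.card_biUnion_le_card_mul _ _ _ fun w hw => Finset.card_image_le.trans (hAc w hw)
  calc _ ≤ S'.card * (s + e) + S'.card * (s + e) := Nat.add_le_add h1 h2
    _ = 2 * (s + e) * S'.card := by ring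

theorem bad_pair (hG : Covers G) (hW : W0 ⊆ U) (T : V → Finset V)
    (hTU : ∀ w ∈ W0, T w ⊆ U.erase w)
    (he : ∀ w ∈ W0, (W0.filter (fun w' => w' ∈ T w)).card ≤ e)
    (hcl : ∀ w ∈ W0, ∀ t ∈ T w,
      ((U.erase w).filter (fun a => a ∉ T w ∧ Tri G w t a)).card < s)
    (a b : V) (hab : a ≠ b) :
    (W0.filter (fun w => a ∈ T w ∧ b ∈ T w ∧ ¬ Tri G w a b)).card ≤ 2 * s + e := by
  rcases (W0.filter (fun w => a ∈ T w ∧ b ∈ T w ∧ ¬ Tri G w a b)).eq_empty_or_nonempty with
    h0 | ⟨w, hw⟩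
  · rw [h0]
    simp
  · rw [Finset.mem_filter] at hw
    obtain ⟨hwW, haT, hbT, hnt⟩ := hw
    have hsub : (W0.filter (fun w => a ∈ T w ∧ b ∈ T w ∧ ¬ Tri G w a b)) ⊆
        insert w (((U.erase w).filter (fun q => q ∉ T w ∧ Tri G w a q)) ∪
          ((U.erase w).filter (fun q => q ∉ T w ∧ Tri G w b q)) ∪
          (W0.filter (fun w' => w' ∈ T w))) := by
      intro v hv
      rw [Finset.mem_filter] at hv
      obtain ⟨hvW, haTv, hbTv, hntv⟩ := hv
      rw [Finset.mem_insert]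
      by_cases hvw : v = w
      · exact Or.inl hvw
      right
      by_cases c : v ∈ T w
      · exact Finset.mem_union_right _ (Finset.mem_filter.2 ⟨hvW, c⟩)
      apply Finset.mem_union_left
      have haw : w ≠ a := (Finset.ne_of_mem_erase (hTU w hwW haT)).symm
      have hbw : w ≠ b := (Finset.ne_of_mem_erase (hTU w hwW hbT)).symm
      have hav : v ≠ a := (Finset.ne_of_mem_erase (hTU v hvW haTv)).symm
      have hbv : v ≠ b := (Finset.ne_of_mem_erase (hTU v hvW hbTv)).symm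
      rcases hG w v a b (Ne.symm hvw) haw hbw hav hbv hab with h | h | h | h
      · exact Finset.mem_union_left _
          (Finset.mem_filter.2 ⟨Finset.mem_erase.2 ⟨hvw, hW hvW⟩, c, h.swap23⟩)
      · exact Finset.mem_union_right _
          (Finset.mem_filter.2 ⟨Finset.mem_erase.2 ⟨hvw, hW hvW⟩, c, h.swap23⟩)
      · exact absurd h hnt
      · exact absurd h hntv
    have h1 := Finset.card_le_card hsub
    have h2 := Finset.card_insert_le w (((U.erase w).filter (fun q => q ∉ T w ∧ Tri G w a q)) ∪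
          ((U.erase w).filter (fun q => q ∉ T w ∧ Tri G w b q)) ∪
          (W0.filter (fun w' => w' ∈ T w)))
    have h3 := Finset.card_union_le (((U.erase w).filter (fun q => q ∉ T w ∧ Tri G w a q)) ∪
          ((U.erase w).filter (fun q => q ∉ T w ∧ Tri G w b q)))
          (W0.filter (fun w' => w' ∈ T w))
    have h4 := Finset.card_union_le ((U.erase w).filter (fun q => q ∉ T w ∧ Tri G w a q))
          ((U.erase w).filter (fun q => q ∉ T w ∧ Tri G w b q))
    have h5 := hcl w hwW a haT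
    have h6 := hcl w hwW b hbT
    have h7 := he w hwW
    omega

private theorem sq_le_four_pow (n : ℕ) : (n + 1) ^ 2 ≤ 4 ^ n := by
  induction n with
  | zero => norm_num
  | succ n ih =>
    have h1 : (4 : ℕ) ^ (n + 1) = 4 * 4 ^ n := by ring
    have h2 : (n + 1 + 1) ^ 2 ≤ 4 * (n + 1) ^ 2 := by
      have h3 : 4 * (n + 1) ^ 2 = (n + 1 + 1) ^ 2 + (3 * n ^ 2 + 4 * n) := by ring
      omega
    rw [h1]
    omega

private theorem pow_big (hs : 1 ≤ s) : 128 * s ^ 2 ≤ 2 ^ (7 * s) := by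
  obtain ⟨n, rfl⟩ : ∃ n, s = n + 1 := ⟨s - 1, by omega⟩
  have h1 := sq_le_four_pow n
  have h2 : (4 : ℕ) ^ n ≤ 128 ^ n := Nat.pow_le_pow_left (by norm_num) n
  have h3 : (2 : ℕ) ^ (7 * (n + 1)) = 128 * 128 ^ n := by
    rw [pow_mul, pow_succ]
    norm_num
    ring
  rw [h3]
  exact Nat.mul_le_mul_left _ (h1.trans h2)

theorem core2 (hG : Covers G) {P : ℕ} (hs : 1 ≤ s) (hP : P ≤ s + 1) (hW : W0 ⊆ U)
    (T : V → Finset V) (z : Fin P → V → V)
    (hTU : ∀ w ∈ W0, T w ⊆ U.erase w)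
    (he : ∀ w ∈ W0, (W0.filter (fun w' => w' ∈ T w)).card ≤ e)
    (hcl : ∀ w ∈ W0, ∀ t ∈ T w,
      ((U.erase w).filter (fun a => a ∉ T w ∧ Tri G w t a)).card < s)
    (hz : ∀ w ∈ W0, ∀ p, z p w ∈ T w) (hc : 2 ^ 12 * s ^ 6 * (s + e) ≤ W0.card) :
    ∃ w ∈ W0, ∃ Y ⊆ T w, (∀ a ∈ Y, ∀ b ∈ Y, a ≠ b → Tri G w a b) ∧
      ∀ p, z p w ∈ Y ∨ s ≤ (Y.filter (fun y => y ≠ z p w ∧ Tri G w (z p w) y)).card := by
  have hr : ∀ p : Fin P, ∃ J ⊆ W0, J.card ≤ (2 * s) * (7 * s) ∧ ∃ E ⊆ W0,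
      2 ^ (7 * s) * E.card ≤ (2 * s) * (W0.card + 2 ^ (7 * s + 1) * (s + e)) ∧
      ∀ a ∈ W0, a ∉ E → z p a ∈ J.image (z p) ∨
        2 * s ≤ ((J.filter (fun j => Tri G a (z p a) (z p j))).image (z p)).card := fun p =>
    rounds W0 (z p) (fun a j => Tri G a (z p a) (z p j)) (s + e)
      (fun S' hS' => noncomp hG hW T (z p) hTU he hcl (fun w hw => hz w hw p) S' hS') (7 * s) (2 * s)
  choose J hJ hJc E hE hEc hall using hr
  set Z : Finset V := Finset.univ.biUnion (fun p => (J p).image (z p)) with hZ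
  set EE : Finset V := Finset.univ.biUnion E with hEE
  set BP : Finset V := ((Z ×ˢ Z).filter (fun q => q.1 ≠ q.2)).biUnion
    (fun q => W0.filter (fun w => q.1 ∈ T w ∧ q.2 ∈ T w ∧ ¬ Tri G w q.1 q.2)) with hBP
  have hP2 : P ≤ 2 * s := by omega
  -- the size of `Z`
  have hZc : Z.card ≤ 28 * s ^ 3 := by
    have h1 : Z.card ≤ (Finset.univ : Finset (Fin P)).card * (2 * s * (7 * s)) :=
      Finset.card_biUnion_le_card_mul _ _ _ fun p _ => Finset.card_image_le.trans (hJc p)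
    rw [Finset.card_univ, Fintype.card_fin] at h1
    calc Z.card ≤ P * (2 * s * (7 * s)) := h1
      _ ≤ 2 * s * (2 * s * (7 * s)) := Nat.mul_le_mul_right _ hP2
      _ = 28 * s ^ 3 := by ring
  -- the size of `EE`
  have hEEc : 32 * EE.card ≤ W0.card + 256 * s ^ 2 * (s + e) := by
    have h1 : 2 ^ (7 * s) * EE.card ≤ P * ((2 * s) * (W0.card + 2 ^ (7 * s + 1) * (s + e))) := by
      calc 2 ^ (7 * s) * EE.card ≤ 2 ^ (7 * s) * ∑ p, (E p).card :=
            Nat.mul_le_mul_left _ Finset.card_biUnion_le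
        _ = ∑ p, 2 ^ (7 * s) * (E p).card := by rw [Finset.mul_sum]
        _ ≤ ∑ _p : Fin P, (2 * s) * (W0.card + 2 ^ (7 * s + 1) * (s + e)) :=
            Finset.sum_le_sum fun p _ => hEc p
        _ = P * ((2 * s) * (W0.card + 2 ^ (7 * s + 1) * (s + e))) := by
            rw [Finset.sum_const, Finset.card_univ, Fintype.card_fin, smul_eq_mul]
    have h2 : P * ((2 * s) * (W0.card + 2 ^ (7 * s + 1) * (s + e))) ≤
        (2 * s) * ((2 * s) * (W0.card + 2 ^ (7 * s + 1) * (s + e))) := Nat.mul_le_mul_right _ hP2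
    have h3 : (128 * s ^ 2) * W0.card ≤ 2 ^ (7 * s) * W0.card :=
      Nat.mul_le_mul_right _ (pow_big hs)
    have h4 : 32 * (2 ^ (7 * s) * EE.card) ≤
        2 ^ (7 * s) * (W0.card + 256 * s ^ 2 * (s + e)) := by
      calc 32 * (2 ^ (7 * s) * EE.card)
          ≤ 32 * ((2 * s) * ((2 * s) * (W0.card + 2 ^ (7 * s + 1) * (s + e)))) :=
            Nat.mul_le_mul_left _ (h1.trans h2)
        _ = (128 * s ^ 2) * W0.card + 2 ^ (7 * s) * (256 * s ^ 2 * (s + e)) := by
            rw [pow_succ]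
            ring
        _ ≤ 2 ^ (7 * s) * W0.card + 2 ^ (7 * s) * (256 * s ^ 2 * (s + e)) :=
            Nat.add_le_add_right h3 _
        _ = 2 ^ (7 * s) * (W0.card + 256 * s ^ 2 * (s + e)) := by ring
    have h5 : 2 ^ (7 * s) * (32 * EE.card) ≤ 2 ^ (7 * s) * (W0.card + 256 * s ^ 2 * (s + e)) := by
      calc 2 ^ (7 * s) * (32 * EE.card) = 32 * (2 ^ (7 * s) * EE.card) := by ring
        _ ≤ _ := h4
    exact Nat.le_of_mul_le_mul_left h5 (Nat.pow_pos (by norm_num))
  -- the size of `BP`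
  have hBPc : BP.card ≤ 1568 * s ^ 6 * (s + e) := by
    have h1 : BP.card ≤ ((Z ×ˢ Z).filter (fun q => q.1 ≠ q.2)).card * (2 * s + e) :=
      Finset.card_biUnion_le_card_mul _ _ _ fun q hq =>
        bad_pair hG hW T hTU he hcl q.1 q.2 (Finset.mem_filter.1 hq).2
    have h2 : ((Z ×ˢ Z).filter (fun q => q.1 ≠ q.2)).card ≤ (28 * s ^ 3) * (28 * s ^ 3) := by
      refine (Finset.card_filter_le _ _).trans ?_
      rw [Finset.card_product]
      exact Nat.mul_le_mul hZc hZc
    calc BP.card ≤ ((28 * s ^ 3) * (28 * s ^ 3)) * (2 * s + e) :=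
          h1.trans (Nat.mul_le_mul_right _ h2)
      _ ≤ ((28 * s ^ 3) * (28 * s ^ 3)) * (2 * (s + e)) := Nat.mul_le_mul_left _ (by omega)
      _ = 1568 * s ^ 6 * (s + e) := by ring
  -- a good `w`
  have hex : ∃ w ∈ W0, w ∉ EE ∪ BP := by
    by_contra hcon
    push Not at hcon
    have h1 : W0.card ≤ EE.card + BP.card :=
      (Finset.card_le_card hcon).trans (Finset.card_union_le _ _)
    have h2 : s ^ 2 * (s + e) ≤ s ^ 6 * (s + e) :=
      Nat.mul_le_mul_right _ (Nat.pow_le_pow_right hs (by norm_num))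
    have h3 : 0 < s ^ 6 * (s + e) := Nat.mul_pos (Nat.pow_pos hs) (by omega)
    have h4 : 256 * s ^ 2 * (s + e) = 256 * (s ^ 2 * (s + e)) := by ring
    have h5 : 1568 * s ^ 6 * (s + e) = 1568 * (s ^ 6 * (s + e)) := by ring
    have h6 : 2 ^ 12 * s ^ 6 * (s + e) = 4096 * (s ^ 6 * (s + e)) := by ring
    omega
  obtain ⟨w, hw, hwn⟩ := hex
  rw [Finset.mem_union, not_or] at hwn
  obtain ⟨hwE, hwB⟩ := hwn
  refine ⟨w, hw, Z ∩ T w, Finset.inter_subset_right, ?_, ?_⟩
  · intro a ha b hb hab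
    rw [Finset.mem_inter] at ha hb
    by_contra hcon
    apply hwB
    rw [hBP, Finset.mem_biUnion]
    exact ⟨(a, b), Finset.mem_filter.2 ⟨Finset.mem_product.2 ⟨ha.1, hb.1⟩, hab⟩,
      Finset.mem_filter.2 ⟨hw, ha.2, hb.2, hcon⟩⟩
  · intro p
    have hwEp : w ∉ E p := fun h => hwE (Finset.mem_biUnion.2 ⟨p, Finset.mem_univ _, h⟩)
    by_cases hzi : z p w ∈ (J p).image (z p)
    · left
      exact Finset.mem_inter.2 ⟨Finset.mem_biUnion.2 ⟨p, Finset.mem_univ _, hzi⟩, hz w hw p⟩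
    · right
      have hI := (hall p w hw hwEp).resolve_left hzi
      set I := ((J p).filter (fun j => Tri G w (z p w) (z p j))).image (z p) with hIdef
      have hsub : I ⊆ insert w (((U.erase w).filter (fun a => a ∉ T w ∧ Tri G w (z p w) a)) ∪
          ((Z ∩ T w).filter (fun y => y ≠ z p w ∧ Tri G w (z p w) y))) := by
        intro y hy
        rw [hIdef, Finset.mem_image] at hy
        obtain ⟨j, hj, rfl⟩ := hy
        rw [Finset.mem_filter] at hj
        rw [Finset.mem_insert]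
        by_cases hyw : z p j = w
        · exact Or.inl hyw
        right
        have hjW := hJ p hj.1
        have hyU : z p j ∈ U := Finset.mem_of_mem_erase (hTU j hjW (hz j hjW p))
        by_cases c : z p j ∈ T w
        · apply Finset.mem_union_right
          have hyJ : z p j ∈ (J p).image (z p) := Finset.mem_image_of_mem _ hj.1
          exact Finset.mem_filter.2 ⟨Finset.mem_inter.2
            ⟨Finset.mem_biUnion.2 ⟨p, Finset.mem_univ _, hyJ⟩, c⟩,
            fun h => hzi (h ▸ hyJ), hj.2⟩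
        · exact Finset.mem_union_left _
            (Finset.mem_filter.2 ⟨Finset.mem_erase.2 ⟨hyw, hyU⟩, c, hj.2⟩)
      have h1 := Finset.card_le_card hsub
      have h2 := Finset.card_insert_le w
        (((U.erase w).filter (fun a => a ∉ T w ∧ Tri G w (z p w) a)) ∪
          ((Z ∩ T w).filter (fun y => y ≠ z p w ∧ Tri G w (z p w) y)))
      have h3 := Finset.card_union_le ((U.erase w).filter (fun a => a ∉ T w ∧ Tri G w (z p w) a))
          ((Z ∩ T w).filter (fun y => y ≠ z p w ∧ Tri G w (z p w) y))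
      have h4 := hcl w hw (z p w) (hz w hw p)
      omega

end KalaiRank
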