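import Pool.Agent.Lib.MP_8317a8_co.PL.Defs

set_option autoImplicit false

/-!
# PL-Cross: crossing edges of the links

`B ⊆ U \ {w}` is closed in the link of `w`: a vertex of `U \ {w}` outside `B` has fewer than `s`
neighbours in `B`.  So the link of `w` has at most `s |U|` edges between `B` and its complement.

* `cross_pairs`: let `P, Q ⊆ U \ {w}` lie on different sides of `B`.  If `P` is outside (or empty):
  the sum over `t ∈ P` of `dT G w B t`, each `< s`.  Otherwise `Q` is outside: the same after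
  `Tri.swap23` and exchanging the two factors.
* `cr_sum`: split the sum into `v ∉ B` and `v ∈ B`; both are numbers of pairs as above
  (`cr` counts, for fixed `v`, the neighbours on the other side).
* `few_cr`: Markov.
* `nested`: for `t ∈ P = reg false true` and `t' ∈ Q = reg true false` (`t ≠ t'`) one of the triples
  `w w' t`, `w w' t'`, `w t t'`, `w' t t'` is an edge.  The number of pairs `(t, t')` is at most
  `h |Q|` in the first case (`t` is counted by `cr G U w B w'`), `h |P|` in the second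
  (`t'` is counted by `cr G U w' B' w`), `s |U|` in the third and fourth (`cross_pairs` for
  `w, B` and for `w', B'`).  `|P| + |Q| ≤ |U|`.
-/

namespace KalaiRank

open Finset

variable {V : Type*} [DecidableEq V] {G : Finset (Finset V)} {U : Finset V} {s : ℕ}

private theorem pairs_eq (w : V) (P Q : Finset V) :
    ((P ×ˢ Q).filter (fun p => Tri G w p.1 p.2)).card =
      ∑ t ∈ P, (Q.filter (fun t' => Tri G w t t')).card := by
  rw [card_filter, sum_product]
  refine sum_congr rfl fun t _ => ?_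
  rw [card_filter]

private theorem pairs_swap (w : V) (P Q : Finset V) :
    ((P ×ˢ Q).filter (fun p => Tri G w p.1 p.2)).card =
      ((Q ×ˢ P).filter (fun p => Tri G w p.1 p.2)).card := by
  rw [card_filter, card_filter, sum_product, sum_product_right]
  refine sum_congr rfl fun t _ => sum_congr rfl fun t' _ => ?_
  by_cases h : Tri G w t t'
  · rw [if_pos h, if_pos h.swap23]
  · rw [if_neg h, if_neg fun h' => h h'.swap23]

private theorem cross_out {w : V} {B : Finset V} (hc : Clo G s w (U.erase w) B)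
    (P Q : Finset V) (hP : P ⊆ U.erase w) (hPB : ∀ t ∈ P, t ∉ B) (hQB : ∀ t ∈ Q, t ∈ B) :
    ((P ×ˢ Q).filter (fun p => Tri G w p.1 p.2)).card ≤ s * U.card := by
  rw [pairs_eq]
  have h1 : ∀ t ∈ P, (Q.filter (fun t' => Tri G w t t')).card ≤ s := by
    intro t ht
    refine le_trans (card_le_card ?_) (hc t (hP ht) (hPB t ht)).le
    intro t' ht'
    rw [mem_filter] at ht' ⊢
    refine ⟨hQB t' ht'.1, ?_, ht'.2⟩
    rintro rfl
    exact hPB _ ht (hQB _ ht'.1)
  calc ∑ t ∈ P, (Q.filter (fun t' => Tri G w t t')).card ≤ ∑ _t ∈ P, s := sum_le_sum h1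
    _ = P.card * s := by rw [sum_const, smul_eq_mul]
    _ ≤ U.card * s := Nat.mul_le_mul_right s (card_le_card (hP.trans (erase_subset _ _)))
    _ = s * U.card := Nat.mul_comm _ _

theorem cross_pairs {w : V} {B : Finset V} (hB : B ⊆ U.erase w) (hc : Clo G s w (U.erase w) B)
    (P Q : Finset V) (hP : P ⊆ U.erase w) (hQ : Q ⊆ U.erase w)
    (hPQ : ∀ t ∈ P, ∀ t' ∈ Q, ¬ (t ∈ B ↔ t' ∈ B)) :
    ((P ×ˢ Q).filter (fun p => Tri G w p.1 p.2)).card ≤ s * U.card := by
  have _ := hB
  rcases P.eq_empty_or_nonempty with rfl | ⟨t₀, ht₀⟩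
  · simp
  rcases Q.eq_empty_or_nonempty with rfl | ⟨q₀, hq₀⟩
  · simp
  by_cases h0 : t₀ ∈ B
  · have hQB : ∀ t ∈ Q, t ∉ B := fun t ht h => hPQ t₀ ht₀ t ht (iff_of_true h0 h)
    have hPB : ∀ t ∈ P, t ∈ B := by
      intro t ht
      by_contra h
      exact hPQ t ht q₀ hq₀ (iff_of_false h (hQB q₀ hq₀))
    rw [pairs_swap]
    exact cross_out hc Q P hQ hQB hPB
  · have hQB : ∀ t ∈ Q, t ∈ B := by
      intro t ht
      by_contra h
      exact hPQ t₀ ht₀ t ht (iff_of_false h0 h)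
    have hPB : ∀ t ∈ P, t ∉ B := fun t ht h => hPQ t ht q₀ hq₀ (iff_of_true h (hQB q₀ hq₀))
    exact cross_out hc P Q hP hPB hQB

theorem cr_sum {w : V} {B : Finset V} (hB : B ⊆ U.erase w) (hc : Clo G s w (U.erase w) B) :
    ∑ v ∈ U.erase w, cr G U w B v ≤ 2 * (s * U.card) := by
  obtain ⟨P, hP⟩ : ∃ P, P = (U.erase w).filter (fun v => v ∈ B) := ⟨_, rfl⟩
  obtain ⟨Q, hQ⟩ : ∃ Q, Q = (U.erase w).filter (fun v => ¬ v ∈ B) := ⟨_, rfl⟩
  have hPU : P ⊆ U.erase w := hP ▸ filter_subset _ _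
  have hQU : Q ⊆ U.erase w := hQ ▸ filter_subset _ _
  have hPB : ∀ t ∈ P, t ∈ B := by
    intro t ht
    rw [hP, mem_filter] at ht
    exact ht.2
  have hQB : ∀ t ∈ Q, t ∉ B := by
    intro t ht
    rw [hQ, mem_filter] at ht
    exact ht.2
  have hsplit : ∑ v ∈ U.erase w, cr G U w B v = ∑ v ∈ P, cr G U w B v + ∑ v ∈ Q, cr G U w B v := by
    rw [hP, hQ]
    exact (sum_filter_add_sum_filter_not _ _ _).symm
  have h1 : ∑ v ∈ P, cr G U w B v ≤ s * U.card := by
    refine le_trans (sum_le_sum fun v hv => ?_) ((pairs_eq (G := G) w P Q).symm.trans_le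
      (cross_pairs hB hc P Q hPU hQU fun t ht t' ht' h => hQB t' ht' (h.1 (hPB t ht))))
    refine card_le_card fun t ht => ?_
    obtain ⟨htU, htw, _, hBt, hT⟩ := mem_filter.1 ht
    rw [mem_filter]
    refine ⟨?_, hT⟩
    rw [hQ, mem_filter, mem_erase]
    exact ⟨⟨htw, htU⟩, fun h => hBt (iff_of_true h (hPB v hv))⟩
  have h2 : ∑ v ∈ Q, cr G U w B v ≤ s * U.card := by
    refine le_trans (sum_le_sum fun v hv => ?_) ((pairs_eq (G := G) w Q P).symm.trans_le
      (cross_pairs hB hc Q P hQU hPU fun t ht t' ht' h => hQB t ht (h.2 (hPB t' ht'))))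
    refine card_le_card fun t ht => ?_
    obtain ⟨htU, htw, _, hBt, hT⟩ := mem_filter.1 ht
    rw [mem_filter]
    refine ⟨?_, hT⟩
    rw [hP, mem_filter, mem_erase]
    refine ⟨⟨htw, htU⟩, ?_⟩
    by_contra h
    exact hBt (iff_of_false h (hQB v hv))
  omega

theorem few_cr {w : V} {B : Finset V} (hB : B ⊆ U.erase w) (hc : Clo G s w (U.erase w) B)
    (h : ℕ) : ((U.erase w).filter (fun v => h < cr G U w B v)).card * h ≤ 2 * (s * U.card) := by
  refine le_trans ?_ (cr_sum hB hc)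
  calc ((U.erase w).filter (fun v => h < cr G U w B v)).card * h
      = ∑ _v ∈ (U.erase w).filter (fun v => h < cr G U w B v), h := by
        rw [sum_const, smul_eq_mul]
    _ ≤ ∑ v ∈ (U.erase w).filter (fun v => h < cr G U w B v), cr G U w B v :=
        sum_le_sum fun v hv => (mem_filter.1 hv).2.le
    _ ≤ ∑ v ∈ U.erase w, cr G U w B v :=
        sum_le_sum_of_subset (filter_subset _ _)

theorem nested (hG : Covers G) {h : ℕ} {w w' : V} (hw : w ∈ U) (hw' : w' ∈ U) (hne : w ≠ w')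
    {B B' : Finset V} (hB : B ⊆ U.erase w) (hc : Clo G s w (U.erase w) B)
    (hB' : B' ⊆ U.erase w') (hc' : Clo G s w' (U.erase w') B')
    (h1 : cr G U w B w' ≤ h) (h2 : cr G U w' B' w ≤ h) (hs : s ≤ h) :
    (reg U w w' B B' false true).card * (reg U w w' B B' true false).card ≤
      4 * h * U.card := by
  have _ := hw
  have _ := hw'
  obtain ⟨P, hP⟩ : ∃ P, P = reg U w w' B B' false true := ⟨_, rfl⟩
  obtain ⟨Q, hQ⟩ : ∃ Q, Q = reg U w w' B B' true false := ⟨_, rfl⟩
  rw [← hP, ← hQ]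
  have hPm : ∀ t ∈ P, t ∈ U ∧ t ≠ w ∧ t ≠ w' ∧ ¬ (t ∈ B ↔ w' ∈ B) ∧ (t ∈ B' ↔ w ∈ B') := by
    intro t ht
    rw [hP] at ht
    unfold reg at ht
    rw [mem_filter, decide_eq_false_iff_not, decide_eq_true_iff] at ht
    exact ht
  have hQm : ∀ t ∈ Q, t ∈ U ∧ t ≠ w ∧ t ≠ w' ∧ (t ∈ B ↔ w' ∈ B) ∧ ¬ (t ∈ B' ↔ w ∈ B') := by
    intro t ht
    rw [hQ] at ht
    unfold reg at ht
    rw [mem_filter, decide_eq_false_iff_not, decide_eq_true_iff] at ht
    exact ht
  have hdis : Disjoint P Q := by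
    rw [disjoint_left]
    intro t htP htQ
    exact (hPm t htP).2.2.2.1 (hQm t htQ).2.2.2.1
  have hsum : P.card + Q.card ≤ U.card := by
    rw [← card_union_of_disjoint hdis]
    refine card_le_card (union_subset ?_ ?_)
    · exact fun t ht => (hPm t ht).1
    · exact fun t ht => (hQm t ht).1
  have hP1 : (P.filter (fun t => Tri G w w' t)).card ≤ h := by
    refine le_trans (card_le_card fun t ht => ?_) h1
    obtain ⟨htP, hT⟩ := mem_filter.1 ht
    obtain ⟨a1, a2, a3, a4, -⟩ := hPm t htP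
    rw [mem_filter]
    exact ⟨a1, a2, a3, a4, hT⟩
  have hQ1 : (Q.filter (fun t => Tri G w w' t)).card ≤ h := by
    refine le_trans (card_le_card fun t ht => ?_) h2
    obtain ⟨htQ, hT⟩ := mem_filter.1 ht
    obtain ⟨a1, a2, a3, -, a5⟩ := hQm t htQ
    rw [mem_filter]
    exact ⟨a1, a3, a2, a5, hT.swap12⟩
  have hX : ((P ×ˢ Q).filter (fun p => Tri G w p.1 p.2)).card ≤ s * U.card := by
    refine cross_pairs hB hc P Q ?_ ?_ ?_
    · exact fun t ht => mem_erase.2 ⟨(hPm t ht).2.1, (hPm t ht).1⟩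
    · exact fun t ht => mem_erase.2 ⟨(hQm t ht).2.1, (hQm t ht).1⟩
    · intro t ht t' ht' hh
      exact (hPm t ht).2.2.2.1 (hh.trans (hQm t' ht').2.2.2.1)
  have hY : ((P ×ˢ Q).filter (fun p => Tri G w' p.1 p.2)).card ≤ s * U.card := by
    refine cross_pairs hB' hc' P Q ?_ ?_ ?_
    · exact fun t ht => mem_erase.2 ⟨(hPm t ht).2.2.1, (hPm t ht).1⟩
    · exact fun t ht => mem_erase.2 ⟨(hQm t ht).2.2.1, (hQm t ht).1⟩
    · intro t ht t' ht' hh
      exact (hQm t' ht').2.2.2.2 (hh.symm.trans (hPm t ht).2.2.2.2)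
  have hcov : P ×ˢ Q ⊆ ((P.filter (fun t => Tri G w w' t)) ×ˢ Q ∪
      P ×ˢ (Q.filter (fun t => Tri G w w' t))) ∪
      ((P ×ˢ Q).filter (fun p => Tri G w p.1 p.2) ∪
        (P ×ˢ Q).filter (fun p => Tri G w' p.1 p.2)) := by
    rintro ⟨t, t'⟩ htt
    obtain ⟨ht, ht'⟩ := mem_product.1 htt
    simp only at ht ht'
    obtain ⟨-, a2, a3, a4, -⟩ := hPm t ht
    obtain ⟨-, b2, b3, b4, -⟩ := hQm t' ht'
    have hne' : t ≠ t' := by
      rintro rfl
      exact a4 b4
    rcases hG w w' t t' hne a2.symm b2.symm a3.symm b3.symm hne' with h | h | h | h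
    · exact mem_union_left _ (mem_union_left _ (mem_product.2 ⟨mem_filter.2 ⟨ht, h⟩, ht'⟩))
    · exact mem_union_left _ (mem_union_right _ (mem_product.2 ⟨ht, mem_filter.2 ⟨ht', h⟩⟩))
    · exact mem_union_right _ (mem_union_left _ (mem_filter.2 ⟨htt, h⟩))
    · exact mem_union_right _ (mem_union_right _ (mem_filter.2 ⟨htt, h⟩))
  have hcard := card_le_card hcov
  have e1 := card_union_le ((P.filter (fun t => Tri G w w' t)) ×ˢ Q ∪
      P ×ˢ (Q.filter (fun t => Tri G w w' t)))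
      ((P ×ˢ Q).filter (fun p => Tri G w p.1 p.2) ∪
        (P ×ˢ Q).filter (fun p => Tri G w' p.1 p.2))
  have e2 := card_union_le ((P.filter (fun t => Tri G w w' t)) ×ˢ Q)
      (P ×ˢ (Q.filter (fun t => Tri G w w' t)))
  have e3 := card_union_le ((P ×ˢ Q).filter (fun p => Tri G w p.1 p.2))
    ((P ×ˢ Q).filter (fun p => Tri G w' p.1 p.2))
  rw [card_product] at hcard
  rw [card_product, card_product] at e2
  have f1 : (P.filter (fun t => Tri G w w' t)).card * Q.card ≤ h * Q.card :=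
    Nat.mul_le_mul_right _ hP1
  have f2 : P.card * (Q.filter (fun t => Tri G w w' t)).card ≤ P.card * h :=
    Nat.mul_le_mul_left _ hQ1
  have f3 : s * U.card ≤ h * U.card := Nat.mul_le_mul_right _ hs
  have f4 : h * Q.card + P.card * h ≤ h * U.card := by
    calc h * Q.card + P.card * h = h * (P.card + Q.card) := by ring
      _ ≤ h * U.card := Nat.mul_le_mul_left _ hsum
  have f5 : 4 * h * U.card = h * U.card + h * U.card + h * U.card + h * U.card := by ring
  omega

end KalaiRank
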