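import Pool.Agent.Lib.MP_8317a8_co.Uniform

set_option autoImplicit false

/-!
# Kalai's rank conjecture with an error polynomial in `s`: definitions
-/

namespace KalaiRank

open Finset Module

section

variable {K : Type*} [Field K] {V : Type*} [DecidableEq V] {s : ℕ}

/-- Generic vectors: for every finite set `B` of vertices and every `v ∉ B` the vectors of `B` are
defined over a subfield over which the coordinates of `x v` are linearly independent. -/
def Generic (x : V → Fin s → K) : Prop :=
  ∀ (B : Finset V) (v : V), v ∉ B → ∃ F : Subfield K, (∀ b ∈ B, ∀ i, x b i ∈ F) ∧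
    ∀ c : Fin s → K, (∀ i, c i ∈ F) → x v ⬝ᵥ c = 0 → c = 0

/-- Every solution of the link relations of `w` on `W` is linear on `A`. -/
def LinSet (G : Finset (Finset V)) (x : V → Fin s → K) (w : V) (W A : Finset V) : Prop :=
  ∀ u : V → Fin s → K, IsSol G x w W u →
    ∃ C : Matrix (Fin s) (Fin s) K, ∀ a ∈ A, u a = C.mulVec (x a)

/-- Every solution of the link relations of `w` on `W` is trivial on `A`. -/
def RRig (G : Finset (Finset V)) (x : V → Fin s → K) (w : V) (W A : Finset V) : Prop :=
  ∀ u : V → Fin s → K, IsSol G x w W u →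
    ∃ q : Sym2 (Fin s) → K, ∀ a ∈ A, ∀ i, u a i = ∑ j, q s(i, j) * x a j

/-- A maximal relatively rigid subset of `W` with at least `L` elements. -/
def IsBlk (G : Finset (Finset V)) (x : V → Fin s → K) (w : V) (W : Finset V) (L : ℕ)
    (A : Finset V) : Prop :=
  A ⊆ W ∧ L ≤ A.card ∧ RRig G x w W A ∧ ∀ A', A ⊆ A' → A' ⊆ W → RRig G x w W A' → A' = A

open Classical in
/-- The blocks. -/
noncomputable def blks (G : Finset (Finset V)) (x : V → Fin s → K) (w : V) (W : Finset V)
    (L : ℕ) : Finset (Finset V) := W.powerset.filter (fun A => IsBlk G x w W L A)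

end

section comb

variable {V : Type*} [DecidableEq V]

/-- Every subset of `W` with `l` elements contains an edge of the link of `w`. -/
def Dense (G : Finset (Finset V)) (w : V) (W : Finset V) (l : ℕ) : Prop :=
  ∀ I ⊆ W, l ≤ I.card → ∃ a ∈ I, ∃ b ∈ I, a ≠ b ∧ Tri G w a b

/-- `T` is properly `k`-colourable in the link of `w`. -/
def Colb (G : Finset (Finset V)) (w : V) (T : Finset V) (k : ℕ) : Prop :=
  ∃ c : V → ℕ, (∀ a ∈ T, c a < k) ∧ ∀ a ∈ T, ∀ b ∈ T, a ≠ b → Tri G w a b → c a ≠ c b

/-- The number of neighbours of `v` in the link of `w` on the other side of `B`. -/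
def cr (G : Finset (Finset V)) (U : Finset V) (w : V) (B : Finset V) (v : V) : ℕ :=
  (U.filter (fun t => t ≠ w ∧ t ≠ v ∧ ¬ (t ∈ B ↔ v ∈ B) ∧ Tri G w v t)).card

/-- The regions cut out by `B` (a set belonging to `w`) and `B'` (a set belonging to `w'`):
`b = true` means: on the side of `w'` with respect to `B`; `b' = true` means: on the side of `w`
with respect to `B'`. -/
def reg (U : Finset V) (w w' : V) (B B' : Finset V) (b b' : Bool) : Finset V :=
  U.filter (fun t => t ≠ w ∧ t ≠ w' ∧ decide (t ∈ B ↔ w' ∈ B) = b ∧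
    decide (t ∈ B' ↔ w ∈ B') = b')

end comb

end KalaiRank
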