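import Mathlib

set_option autoImplicit false

/-!
# PL-Dom: dominating sets of almost complete relations

* `dom`: induction on `k`.  Given `J`, let `S'` be the set of the `a ∈ S` with `¬ r a j` for all
  `j ∈ J`; if it is nonempty some `j' ∈ S'` has `2 |{a ∈ S' : ¬ r a j'}| ≤ |S'| + 2 c`: for the
  number `N` of pairs `(a, j)` of elements of `S'` with `¬ r a j`:
  `2 N ≤ |S'|^2 + |{(a, j) : ¬ r a j ∧ ¬ r j a}| ≤ |S'|^2 + 2 c |S'|`.  Take `insert j' J`.
* `rounds`: induction on `m`.  Given `J, E` for `m`, let `S1` be the set of the `a ∈ S` with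
  `z a ∉ J.image z`; apply `dom` to `S1` and `r a j := z a = z j ∨ t a j`; get `J1 ⊆ S1`, and `E1` =
  the elements of `S1` with `¬ r a j` for all `j ∈ J1`.  Take `J ∪ J1`, `E ∪ E1`: if `a ∉ E ∪ E1` and
  `z a ∉ (J ∪ J1).image z` then `a ∈ S1` and some `j1 ∈ J1` has `t a j1`, and
  `z j1 ∉ J.image z` is a new value.
-/

namespace KalaiRank

open Finset

variable {V : Type*} [DecidableEq V]

private theorem step (S : Finset V) (r : V → V → Prop) [DecidableRel r] (c : ℕ)
    (h : ((S ×ˢ S).filter (fun p => ¬ r p.1 p.2 ∧ ¬ r p.2 p.1)).card ≤ 2 * c * S.card)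
    (hS : S.Nonempty) : ∃ j ∈ S, 2 * (S.filter (fun a => ¬ r a j)).card ≤ S.card + 2 * c := by
  by_contra hcon
  push Not at hcon
  have h1 : S.card * (S.card + 2 * c) < ∑ j ∈ S, 2 * (S.filter (fun a => ¬ r a j)).card := by
    have := Finset.sum_lt_sum_of_nonempty hS (fun j hj => hcon j hj)
    rwa [Finset.sum_const, smul_eq_mul] at this
  have hA : ∑ j ∈ S, (S.filter (fun a => ¬ r a j)).card =
      ((S ×ˢ S).filter (fun p => ¬ r p.1 p.2)).card := by
    simp_rw [Finset.card_filter]
    rw [Finset.sum_product_right]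
  have hB : ∑ j ∈ S, (S.filter (fun a => ¬ r a j)).card =
      ((S ×ˢ S).filter (fun p => ¬ r p.2 p.1)).card := by
    simp_rw [Finset.card_filter]
    rw [Finset.sum_product]
  have hU : (((S ×ˢ S).filter (fun p => ¬ r p.1 p.2)) ∪
      ((S ×ˢ S).filter (fun p => ¬ r p.2 p.1))).card ≤ S.card * S.card := by
    rw [← Finset.card_product]
    exact Finset.card_le_card (Finset.union_subset (Finset.filter_subset _ _)
      (Finset.filter_subset _ _))
  have hI : (((S ×ˢ S).filter (fun p => ¬ r p.1 p.2)) ∩
      ((S ×ˢ S).filter (fun p => ¬ r p.2 p.1))).card ≤ 2 * c * S.card := by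
    rw [← Finset.filter_and]
    exact h
  have hUI := Finset.card_union_add_card_inter ((S ×ˢ S).filter (fun p => ¬ r p.1 p.2))
    ((S ×ˢ S).filter (fun p => ¬ r p.2 p.1))
  rw [← Finset.mul_sum] at h1
  nlinarith

theorem dom (S : Finset V) (r : V → V → Prop) [DecidableRel r] (c : ℕ)
    (h : ∀ S' ⊆ S, ((S' ×ˢ S').filter (fun p => ¬ r p.1 p.2 ∧ ¬ r p.2 p.1)).card ≤
      2 * c * S'.card) (k : ℕ) :
    ∃ J ⊆ S, J.card ≤ k ∧
      2 ^ k * (S.filter (fun a => ∀ j ∈ J, ¬ r a j)).card ≤ S.card + 2 ^ (k + 1) * c := by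
  induction k with
  | zero =>
    refine ⟨∅, Finset.empty_subset _, by simp, ?_⟩
    have := Finset.card_filter_le S (fun a => ∀ j ∈ (∅ : Finset V), ¬ r a j)
    rw [pow_zero, one_mul]
    omega
  | succ k ih =>
    obtain ⟨J, hJ, hc, hk⟩ := ih
    set S' := S.filter (fun a => ∀ j ∈ J, ¬ r a j) with hS'
    have hsub : S' ⊆ S := Finset.filter_subset _ _
    rcases S'.eq_empty_or_nonempty with he | hne
    · refine ⟨J, hJ, by omega, ?_⟩
      rw [← hS', he]
      simp
    · obtain ⟨j, hj, hj2⟩ := step S' r c (h S' hsub) hne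
      refine ⟨insert j J, Finset.insert_subset (hsub hj) hJ,
        (Finset.card_insert_le _ _).trans (by omega), ?_⟩
      have he : S.filter (fun a => ∀ j' ∈ insert j J, ¬ r a j') =
          S'.filter (fun a => ¬ r a j) := by
        ext a
        rw [hS']
        simp only [Finset.mem_filter, Finset.mem_insert, forall_eq_or_imp]
        tauto
      rw [he]
      have h2 : 2 ^ (k + 1) * (S'.filter (fun a => ¬ r a j)).card ≤ 2 ^ k * (S'.card + 2 * c) := by
        rw [pow_succ, mul_assoc]
        exact Nat.mul_le_mul_left _ hj2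
      calc 2 ^ (k + 1) * (S'.filter (fun a => ¬ r a j)).card ≤ 2 ^ k * (S'.card + 2 * c) := h2
        _ = 2 ^ k * S'.card + 2 ^ (k + 1) * c := by ring
        _ ≤ (S.card + 2 ^ (k + 1) * c) + 2 ^ (k + 1) * c := by omega
        _ = S.card + 2 ^ (k + 1 + 1) * c := by ring

theorem rounds (S : Finset V) (z : V → V) (t : V → V → Prop) [DecidableRel t] (c : ℕ)
    (h : ∀ S' ⊆ S, ((S' ×ˢ S').filter
      (fun p => z p.1 ≠ z p.2 ∧ ¬ t p.1 p.2 ∧ ¬ t p.2 p.1)).card ≤ 2 * c * S'.card) (k m : ℕ) :
    ∃ J ⊆ S, J.card ≤ m * k ∧ ∃ E ⊆ S, 2 ^ k * E.card ≤ m * (S.card + 2 ^ (k + 1) * c) ∧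
      ∀ a ∈ S, a ∉ E → z a ∈ J.image z ∨ m ≤ ((J.filter (fun j => t a j)).image z).card := by
  induction m with
  | zero =>
    refine ⟨∅, Finset.empty_subset _, by simp, ∅, Finset.empty_subset _, by simp, ?_⟩
    intro a _ _
    exact Or.inr (Nat.zero_le _)
  | succ m ih =>
    obtain ⟨J, hJ, hJc, E, hE, hEc, hall⟩ := ih
    set S1 := S.filter (fun a => z a ∉ J.image z) with hS1
    have hS1s : S1 ⊆ S := Finset.filter_subset _ _
    obtain ⟨J1, hJ1, hJ1c, hJ1e⟩ := dom S1 (fun a j => z a = z j ∨ t a j) c (by
      intro S' hS'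
      refine le_trans (Finset.card_le_card ?_) (h S' (hS'.trans hS1s))
      intro p hp
      rw [Finset.mem_filter] at hp ⊢
      obtain ⟨hp1, hp2, hp3⟩ := hp
      push Not at hp2 hp3
      exact ⟨hp1, hp2.1, hp2.2, hp3.2⟩) k
    set E1 := S1.filter (fun a => ∀ j ∈ J1, ¬ (z a = z j ∨ t a j)) with hE1
    have hE1s : E1 ⊆ S1 := Finset.filter_subset _ _
    refine ⟨J ∪ J1, Finset.union_subset hJ (hJ1.trans hS1s), ?_, E ∪ E1,
      Finset.union_subset hE (hE1s.trans hS1s), ?_, ?_⟩
    · refine (Finset.card_union_le _ _).trans ?_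
      rw [Nat.succ_mul]
      omega
    · have h1 : S1.card ≤ S.card := Finset.card_le_card hS1s
      calc 2 ^ k * (E ∪ E1).card ≤ 2 ^ k * (E.card + E1.card) :=
            Nat.mul_le_mul_left _ (Finset.card_union_le _ _)
        _ = 2 ^ k * E.card + 2 ^ k * E1.card := by ring
        _ ≤ m * (S.card + 2 ^ (k + 1) * c) + (S.card + 2 ^ (k + 1) * c) := by omega
        _ = (m + 1) * (S.card + 2 ^ (k + 1) * c) := by ring
    · intro a ha hae
      rw [Finset.mem_union, not_or] at hae
      rcases hall a ha hae.1 with h1 | h1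
      · left
        exact Finset.image_subset_image Finset.subset_union_left h1
      · by_cases hz : z a ∈ J.image z
        · left
          exact Finset.image_subset_image Finset.subset_union_left hz
        · have haS1 : a ∈ S1 := Finset.mem_filter.2 ⟨ha, hz⟩
          have hex : ∃ j ∈ J1, z a = z j ∨ t a j := by
            by_contra hcon
            push Not at hcon
            refine hae.2 (Finset.mem_filter.2 ⟨haS1, ?_⟩)
            intro j hj hor
            rcases hor with h2 | h2
            · exact (hcon j hj).1 h2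
            · exact (hcon j hj).2 h2
          obtain ⟨j1, hj1, hor⟩ := hex
          rcases hor with h2 | h2
          · left
            rw [h2]
            exact Finset.mem_image_of_mem _ (Finset.mem_union_right _ hj1)
          · right
            have hnot : z j1 ∉ J.image z := (Finset.mem_filter.1 (hJ1 hj1)).2
            have hins : insert (z j1) ((J.filter (fun j => t a j)).image z) ⊆
                ((J ∪ J1).filter (fun j => t a j)).image z := by
              intro w hw
              rw [Finset.mem_insert] at hw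
              rcases hw with rfl | hw
              · exact Finset.mem_image_of_mem _
                  (Finset.mem_filter.2 ⟨Finset.mem_union_right _ hj1, h2⟩)
              · refine Finset.image_subset_image ?_ hw
                exact Finset.filter_subset_filter _ Finset.subset_union_left
            have hnin : z j1 ∉ (J.filter (fun j => t a j)).image z := fun hmem =>
              hnot (Finset.image_subset_image (Finset.filter_subset _ _) hmem)
            have := Finset.card_le_card hins
            rw [Finset.card_insert_of_notMem hnin] at this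
            omega

end KalaiRank
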