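import Pool.Agent.Lib.MP_8317a8_co.PL.Defs

set_option autoImplicit false

/-!
# PL-RR: relative rigidity, colourings

Copies of the lemmas of `Rigid.lean` for `RRig` (solutions on a bigger set `W`); colourings.

* `RRig.attach`, `RRig.glue`, `exists_max_rrig`: as `Rigid.attach`, `Rigid.glue`,
  `exists_max_rigid` (files `Rigid.lean`, `Good.lean`).
* `finrank_Sol_le_two`: as `finrank_Sol_union_le` and `finrank_Sol_of_rigid`
  (`finrank_le_of_two` with the ranges of `triv x A` and `triv x T`).
* `Colb.insert`: the `< k` neighbours of `t` in `T` use at most `k - 1` colours.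
* `colb_of_low`: `Finset.induction_on` over subsets of `T` and `Colb.insert`.
* `Colb.card_le`: a colour class is independent, so has fewer than `l` elements.
* `rrig_of_lin`: let `u` be a solution, `u a = C x_a` on `A`, `S = C - Cᵀ`.  For adjacent
  `a, b ∈ A`: `x a ⬝ S (x b) = 0`.  The vertices of `A` with `< s` neighbours in `A` form a set
  with at most `s (l - 1)` elements (`colb_of_low`, `Colb.card_le`), so at least `s` vertices
  `b ∈ A` have `≥ s` neighbours in `A`, for these `S (x b) = 0` (`GenPos.eq_zero`); so `S = 0`.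
  Put `q s(i,j) = C i j`.
-/

namespace KalaiRank

open Finset Module

section comb

variable {V : Type*} [DecidableEq V] {G : Finset (Finset V)} {w : V}

theorem Colb.empty (k : ℕ) : Colb G w ∅ k := by
  refine ⟨fun _ => 0, ?_, ?_⟩
  · intro a ha
    simp at ha
  · intro a ha
    simp at ha

theorem Colb.insert {T : Finset V} {k : ℕ} (h : Colb G w T k) (t : V) (ht : dT G w T t < k) :
    Colb G w (insert t T) k := by
  obtain ⟨c, hc1, hc2⟩ := h
  by_cases htT : t ∈ T
  · rw [Finset.insert_eq_of_mem htT]
    exact ⟨c, hc1, hc2⟩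
  obtain ⟨N, hN⟩ : ∃ N, N = T.filter (fun u => u ≠ t ∧ Tri G w t u) := ⟨_, rfl⟩
  have hcard : (N.image c).card < (Finset.range k).card := by
    rw [Finset.card_range]
    refine lt_of_le_of_lt Finset.card_image_le ?_
    rw [hN]
    exact ht
  obtain ⟨j, hj, hjN⟩ := Finset.exists_mem_notMem_of_card_lt_card hcard
  rw [Finset.mem_range] at hj
  have hjN' : ∀ b ∈ T, b ≠ t → Tri G w t b → c b ≠ j := by
    intro b hb hbt htri he
    apply hjN
    rw [Finset.mem_image]
    refine ⟨b, ?_, he⟩
    rw [hN, Finset.mem_filter]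
    exact ⟨hb, hbt, htri⟩
  refine ⟨Function.update c t j, ?_, ?_⟩
  · intro a ha
    by_cases hat : a = t
    · rw [hat, Function.update_self]
      exact hj
    · rw [Function.update_of_ne hat]
      exact hc1 a (Finset.mem_of_mem_insert_of_ne ha hat)
  · intro a ha b hb hab htri
    by_cases hat : a = t
    · have hbt : b ≠ t := fun h => hab (hat.trans h.symm)
      have hbT := Finset.mem_of_mem_insert_of_ne hb hbt
      rw [hat, Function.update_self, Function.update_of_ne hbt]
      exact (hjN' b hbT hbt (hat ▸ htri)).symm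
    · have haT := Finset.mem_of_mem_insert_of_ne ha hat
      by_cases hbt : b = t
      · rw [hbt, Function.update_self, Function.update_of_ne hat]
        exact hjN' a haT hat (hbt ▸ htri.swap23)
      · have hbT := Finset.mem_of_mem_insert_of_ne hb hbt
        rw [Function.update_of_ne hat, Function.update_of_ne hbt]
        exact hc2 a haT b hbT hab htri

theorem colb_of_low {T : Finset V} {k : ℕ} (h : ∀ t ∈ T, dT G w T t < k) : Colb G w T k := by
  have key : ∀ A : Finset V, A ⊆ T → Colb G w A k := by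
    intro A
    induction A using Finset.induction_on with
    | empty => exact fun _ => Colb.empty k
    | insert t A _ ih =>
      intro hA
      have hAT : A ⊆ T := (Finset.subset_insert t A).trans hA
      refine (ih hAT).insert t ?_
      exact lt_of_le_of_lt (dT_mono G w hAT t) (h t (hA (Finset.mem_insert_self t A)))
  exact key T (Finset.Subset.refl T)

theorem Colb.card_le {T W : Finset V} {k l : ℕ} (h : Colb G w T k) (hT : T ⊆ W)
    (hD : Dense G w W l) : T.card ≤ k * (l - 1) := by
  obtain ⟨c, hc1, hc2⟩ := h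
  have h1 := Finset.card_le_mul_card_image_of_maps_to (s := T) (t := Finset.range k) (f := c)
    (fun a ha => Finset.mem_range.2 (hc1 a ha)) (l - 1) (by
      intro j _
      by_contra hlt
      push Not at hlt
      obtain ⟨a, ha, b, hb, hab, htri⟩ := hD (T.filter (fun a => c a = j))
        ((Finset.filter_subset _ _).trans hT) (by omega)
      rw [Finset.mem_filter] at ha hb
      exact hc2 a ha.1 b hb.1 hab htri (ha.2.trans hb.2.symm))
  rw [Finset.card_range] at h1
  rw [mul_comm]
  exact h1

end comb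

variable {K : Type*} [Field K] {V : Type*} [DecidableEq V] {s : ℕ}
  {G : Finset (Finset V)} {x : V → Fin s → K} {w : V}

theorem RRig.mono {W A A' : Finset V} (h : RRig G x w W A) (hA : A' ⊆ A) : RRig G x w W A' := by
  intro u hu
  obtain ⟨q, hq⟩ := h u hu
  exact ⟨q, fun a ha i => hq a (hA ha) i⟩

theorem Rigid.rrig {W A : Finset V} (h : Rigid G x w A) (hA : A ⊆ W) : RRig G x w W A := by
  intro u hu
  exact h u (hu.mono hA)

theorem LinSet.mono {W W' A A' : Finset V} (h : LinSet G x w W A) (hA : A' ⊆ A) (hW : W ⊆ W') :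
    LinSet G x w W' A' := by
  intro u hu
  obtain ⟨C, hC⟩ := h u (hu.mono hW)
  exact ⟨C, fun a ha => hC a (hA ha)⟩

theorem RRig.attach (hx : GenPos x) {W A T : Finset V} (h : RRig G x w W A) (hA : A ⊆ W)
    (hTW : T ⊆ W) (hT : ∀ t ∈ T, t ∈ A ∨ s ≤ dT G w A t) : RRig G x w W (A ∪ T) := by
  intro u hu
  obtain ⟨q, hq⟩ := h u hu
  refine ⟨q, fun a ha i => ?_⟩
  by_cases haS : a ∈ A
  · exact hq a haS i
  · have haT : a ∈ T := by
      rw [Finset.mem_union] at ha; tauto
    have hc : s ≤ (A.filter (fun y => y ≠ a ∧ Tri G w a y)).card := by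
      rcases hT a haT with h | h
      · exact absurd h haS
      · exact h
    have key : (fun i => u a i - ∑ j, q s(i, j) * x a j) = 0 := by
      apply hx.eq_zero _ hc
      intro b hb
      rw [Finset.mem_filter] at hb
      obtain ⟨hbS, hba, htri⟩ := hb
      have h1 : x a ⬝ᵥ u b = x b ⬝ᵥ u a :=
        hu a (hTW haT) b (hA hbS) (Ne.symm hba) htri
      have h2 : u b = fun i => ∑ j, q s(i, j) * x b j := by
        funext i; exact hq b hbS i
      rw [h2, dot_symm] at h1
      have h3 : (fun i => u a i - ∑ j, q s(i, j) * x a j) =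
          u a - (fun i => ∑ j, q s(i, j) * x a j) := rfl
      rw [h3, dotProduct_sub, h1, sub_self]
    have := congrFun key i
    simp only [Pi.zero_apply] at this
    exact sub_eq_zero.1 this

theorem RRig.glue (hx : GenPos x) {W A B : Finset V} (hA : RRig G x w W A) (hB : RRig G x w W B)
    (h : s ≤ (A ∩ B).card) : RRig G x w W (A ∪ B) := by
  intro u hu
  obtain ⟨q, hq⟩ := hA u hu
  obtain ⟨r, hr⟩ := hB u hu
  have key : ∀ i, (fun j => q s(i, j) - r s(i, j)) = 0 := by
    intro i
    apply hx.eq_zero _ h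
    intro a ha
    rw [Finset.mem_inter] at ha
    have h1 := hq a ha.1 i
    have h2 := hr a ha.2 i
    simp only [dotProduct, mul_sub, Finset.sum_sub_distrib]
    rw [sub_eq_zero]
    calc ∑ j, x a j * q s(i, j) = u a i := by
          rw [h1]; exact Finset.sum_congr rfl fun j _ => mul_comm _ _
      _ = ∑ j, x a j * r s(i, j) := by
          rw [h2]; exact Finset.sum_congr rfl fun j _ => mul_comm _ _
  refine ⟨q, fun a ha i => ?_⟩
  rw [Finset.mem_union] at ha
  rcases ha with ha | ha
  · exact hq a ha i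
  · rw [hr a ha i]
    refine Finset.sum_congr rfl fun j _ => ?_
    have := congrFun (key i) j
    simp only [Pi.zero_apply] at this
    rw [sub_eq_zero.1 this]

theorem exists_max_rrig (G : Finset (Finset V)) (x : V → Fin s → K) (w : V) (W U0 A0 : Finset V)
    (hA0 : A0 ⊆ U0) (h : RRig G x w W A0) :
    ∃ A, A0 ⊆ A ∧ A ⊆ U0 ∧ RRig G x w W A ∧
      ∀ A', A ⊆ A' → A' ⊆ U0 → RRig G x w W A' → A' = A := by
  classical
  set F := U0.powerset.filter (fun A => A0 ⊆ A ∧ RRig G x w W A) with hF
  have hne : F.Nonempty := ⟨A0, by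
    rw [hF, Finset.mem_filter, Finset.mem_powerset]
    exact ⟨hA0, Finset.Subset.refl _, h⟩⟩
  obtain ⟨A, hA, hmax⟩ := Finset.exists_max_image F Finset.card hne
  rw [hF, Finset.mem_filter, Finset.mem_powerset] at hA
  refine ⟨A, hA.2.1, hA.1, hA.2.2, fun A' hAA' hA'U hr => ?_⟩
  have hA' : A' ∈ F := by
    rw [hF, Finset.mem_filter, Finset.mem_powerset]
    exact ⟨hA'U, hA.2.1.trans hAA', hr⟩
  exact (Finset.eq_of_subset_of_card_le hAA' (hmax A' hA')).symm

private theorem rr_range_triv (A : Finset V) [Fintype V] :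
    finrank K (LinearMap.range (triv x A)) ≤ (s + 1).choose 2 := by
  have h2 := LinearMap.finrank_range_le (triv x A)
  rw [Module.finrank_fintype_fun_eq_card, Sym2.card, Fintype.card_fin] at h2
  exact h2

private theorem rr_restr_mem {W A : Finset V} (h : RRig G x w W A) {u : V → Fin s → K}
    (hu : IsSol G x w W u) : restr K s A u ∈ LinearMap.range (triv x A) := by
  obtain ⟨q, hq⟩ := h u hu
  refine ⟨q, ?_⟩
  funext a i
  change (if a ∈ A then ∑ j, q s(i, j) * x a j else 0) = restr K s A u a i
  rw [restr_apply]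
  by_cases ha : a ∈ A
  · rw [if_pos ha, if_pos ha, hq a ha i]
  · rw [if_neg ha, if_neg ha]
    rfl

theorem finrank_Sol_le_two [Fintype V] {A T : Finset V} (hA : RRig G x w (A ∪ T) A)
    (hT : RRig G x w (A ∪ T) T) : finrank K (Sol G x w (A ∪ T)) ≤ s * (s + 1) := by
  have h1 := finrank_le_of_two (Sol G x w (A ∪ T)) (LinearMap.range (triv x A))
    (LinearMap.range (triv x T)) (restr K s A) (restr K s T)
    (fun u hu => rr_restr_mem hA hu.2) (fun u hu _ => rr_restr_mem hT hu.2) (by
      intro u hu h1 h2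
      funext a
      by_cases haA : a ∈ A
      · have := congrFun h1 a
        rwa [restr_apply, if_pos haA] at this
      · by_cases haB : a ∈ T
        · have := congrFun h2 a
          rwa [restr_apply, if_pos haB] at this
        · exact hu.1 a (by rw [Finset.mem_union]; tauto))
  have h2 := rr_range_triv (K := K) (x := x) A
  have h3 := rr_range_triv (K := K) (x := x) T
  have hchoose : (s + 1).choose 2 + (s + 1).choose 2 = s * (s + 1) := by
    have := Nat.choose_two_right (s + 1)
    have h2 : 2 ∣ (s + 1) * (s + 1 - 1) := (Nat.even_mul_pred_self (s + 1)).two_dvd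
    obtain ⟨k, hk⟩ := h2
    rw [hk] at this
    have h3 : (s + 1) * (s + 1 - 1) = s * (s + 1) := by
      rw [Nat.add_sub_cancel, mul_comm]
    omega
  omega

theorem rrig_of_lin (hx : GenPos x) {W A : Finset V} {l : ℕ} (hs : 1 ≤ s) (hl : 1 ≤ l)
    (hD : Dense G w W l) (hA : A ⊆ W)
    (h : LinSet G x w W A) (hc : s * l ≤ A.card) : RRig G x w W A := by
  intro u hu
  obtain ⟨C, hC⟩ := h u hu
  obtain ⟨S, hS⟩ : ∃ S, S = C - C.transpose := ⟨_, rfl⟩
  -- adjacent vertices
  have hadj : ∀ a ∈ A, ∀ b ∈ A, a ≠ b → Tri G w a b → x a ⬝ᵥ S.mulVec (x b) = 0 := by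
    intro a ha b hb hab htri
    have h1 := hu a (hA ha) b (hA hb) hab htri
    rw [hC a ha, hC b hb] at h1
    rw [hS, Matrix.sub_mulVec, dotProduct_sub, h1, sub_eq_zero, Matrix.mulVec_transpose,
      dotProduct_comm (x a), ← Matrix.dotProduct_mulVec]
  -- vertices of small degree
  obtain ⟨Lw, hLw⟩ : ∃ Lw, Lw = A.filter (fun a => dT G w A a < s) := ⟨_, rfl⟩
  have hLA : Lw ⊆ A := by
    rw [hLw]
    exact Finset.filter_subset _ _
  have hcol : Colb G w Lw s := by
    apply colb_of_low
    intro t ht
    refine lt_of_le_of_lt (dT_mono G w hLA t) ?_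
    rw [hLw, Finset.mem_filter] at ht
    exact ht.2
  have hLc : Lw.card ≤ s * (l - 1) := hcol.card_le (hLA.trans hA) hD
  have hHc : s ≤ (A \ Lw).card := by
    rw [Finset.card_sdiff_of_subset hLA]
    obtain ⟨l', rfl⟩ : ∃ l', l = l' + 1 := ⟨l - 1, by omega⟩
    rw [Nat.add_sub_cancel] at hLc
    rw [Nat.mul_succ] at hc
    omega
  have hzero : ∀ b ∈ A \ Lw, S.mulVec (x b) = 0 := by
    intro b hb
    rw [Finset.mem_sdiff] at hb
    have hdeg : s ≤ (A.filter (fun t => t ≠ b ∧ Tri G w b t)).card := by
      by_contra hlt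
      push Not at hlt
      apply hb.2
      rw [hLw, Finset.mem_filter]
      exact ⟨hb.1, hlt⟩
    refine hx.eq_zero _ hdeg _ ?_
    intro a ha
    rw [Finset.mem_filter] at ha
    exact hadj a ha.1 b hb.1 ha.2.1 ha.2.2.swap23
  have hS0 : ∀ i, S i = 0 := by
    intro i
    refine hx.eq_zero _ hHc _ ?_
    intro b hb
    have h1 := congrFun (hzero b hb) i
    rw [dotProduct_comm]
    exact h1
  have hsymm : ∀ i j, C i j = C j i := by
    intro i j
    have h1 := congrFun (hS0 i) j
    rw [hS, Matrix.sub_apply, Matrix.transpose_apply] at h1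
    exact sub_eq_zero.1 h1
  refine ⟨Sym2.lift ⟨fun i j => C i j, hsymm⟩, fun a ha i => ?_⟩
  rw [hC a ha]
  simp only [Sym2.lift_mk]
  rfl

end KalaiRank
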