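import Pool.Agent.Lib.MP_8317a8_co.PL.Lin
import Pool.Agent.Lib.MP_8317a8_co.PL.RR

set_option autoImplicit false

/-!
# PL-Dust: a set disjoint from all big relatively rigid sets is small

Claim, by induction on `k ≤ |W|`: there are `B ⊆ W` with `|B| = k` and `T, D, Z` with
`Y ∩ B ⊆ T ∪ D ∪ Z`, `T ⊆ B`, `Z ⊆ B`, `|D| + finrank Sol B ≤ s |T|`, `Colb T s`, `Colb Z L`.

Step (`B ≠ W`):
* if some `v ∈ W \ B` has `s ≤ dT G w B v`: `finrank Sol (insert v B) ≤ finrank Sol B`
  (`Sol_insert_le` with `⊥`, see `exists_clo` in `Uniform.lean`).  If the inequality is strict: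
  add `v` to `D`.  If there is equality: by `linear_of_surj` the neighbours of `v` in `B` form a
  linear set (on `B`, hence on `W`).  If `v ∈ Y` then there are fewer than `L` of them: otherwise
  `rrig_of_lin` and `RRig.attach` give a relatively rigid set containing `v` with `≥ L` elements,
  against `hY`; so add `v` to `Z` (`Colb.insert`).  If `v ∉ Y` nothing changes.
* otherwise add any `t ∈ W \ B` to `T` (`Colb.insert`, `Sol_insert_le` with `⊤`).

For `k = |W|` (`B = W`): `|T| ≤ s (l-1)`, `|D| ≤ s |T|`, `|Z| ≤ L (l-1)` (`Colb.card_le`).
-/

namespace KalaiRank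

open Finset Module

variable {K : Type*} [Field K] {V : Type*} [DecidableEq V] [Fintype V] {s : ℕ}

theorem dust {x : V → Fin s → K} (hx : GenPos x) (hgen : Generic x) (hs : 1 ≤ s)
    {G : Finset (Finset V)} {w : V} {W Y : Finset V} {l L : ℕ} (hl : 1 ≤ l)
    (hD : Dense G w W l) (hL : s * l ≤ L) (hYW : Y ⊆ W)
    (hY : ∀ A ⊆ W, RRig G x w W A → L ≤ A.card → Disjoint A Y) :
    Y.card ≤ s * l + s * (s * l) + L * l := by
  classical
  -- the family of the sets `B` with the invariant
  obtain ⟨F, hF⟩ : ∃ F : Finset (Finset V), F = W.powerset.filter (fun B => ∃ T D Z : Finset V,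
      Y ∩ B ⊆ T ∪ D ∪ Z ∧ T ⊆ B ∧ Z ⊆ B ∧ D.card + finrank K (Sol G x w B) ≤ s * T.card ∧
      Colb G w T s ∧ Colb G w Z L) := ⟨_, rfl⟩
  have hmem : ∀ B, B ∈ F ↔ B ⊆ W ∧ ∃ T D Z : Finset V,
      Y ∩ B ⊆ T ∪ D ∪ Z ∧ T ⊆ B ∧ Z ⊆ B ∧ D.card + finrank K (Sol G x w B) ≤ s * T.card ∧
      Colb G w T s ∧ Colb G w Z L := by
    intro B
    rw [hF, mem_filter, mem_powerset]
  have hne : F.Nonempty := by
    refine ⟨∅, (hmem ∅).2 ⟨empty_subset _, ∅, ∅, ∅, ?_, Subset.refl _, Subset.refl _, ?_,
      Colb.empty _, Colb.empty _⟩⟩
    · rw [inter_empty]
      exact empty_subset _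
    · have := finrank_Sol_le_card G x w ∅
      rw [card_empty] at this ⊢
      omega
  obtain ⟨B, hB, hmax⟩ := Finset.exists_max_image F Finset.card hne
  obtain ⟨hBW, T, D, Z, hYB, hTB, hZB, hdim, hT, hZ⟩ := (hmem B).1 hB
  have hno : ∀ v ∈ W, v ∉ B → insert v B ∉ F := by
    intro v _ hvB hv
    have := hmax _ hv
    rw [card_insert_of_notMem hvB] at this
    omega
  have hBeq : B = W := by
    by_contra hne2
    obtain ⟨t, htW, htB⟩ := Finset.exists_of_ssubset
      (Finset.ssubset_iff_subset_ne.2 ⟨hBW, hne2⟩)
    by_cases hcase : ∃ v ∈ W, v ∉ B ∧ s ≤ dT G w B v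
    · obtain ⟨v, hvW, hvB, hdv⟩ := hcase
      have hins : insert v B ⊆ W := insert_subset hvW hBW
      have hle1 : finrank K (Sol G x w (insert v B)) ≤ finrank K (Sol G x w B) := by
        have h1 := Sol_insert_le G x w B v ⊥ (fun u hu => by
          rw [Submodule.mem_bot]
          apply hx.eq_zero _ hdv
          intro a ha
          rw [mem_filter] at ha
          exact hu a ha.1 ha.2.1 ha.2.2)
        rwa [finrank_bot, add_zero] at h1
      rcases hle1.lt_or_eq with hlt | heq
      · apply hno v hvW hvB
        refine (hmem _).2 ⟨hins, T, insert v D, Z, ?_, hTB.trans (subset_insert v B),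
          hZB.trans (subset_insert v B), ?_, hT, hZ⟩
        · intro a ha
          rw [mem_inter, mem_insert] at ha
          rcases ha.2 with rfl | h
          · simp
          · have := hYB (mem_inter.2 ⟨ha.1, h⟩)
            simp only [mem_union, mem_insert] at this ⊢
            tauto
        · have := card_insert_le v D
          omega
      · by_cases hvY : v ∈ Y
        · obtain ⟨N, hN⟩ : ∃ N, N = B.filter (fun y => y ≠ v ∧ Tri G w v y) := ⟨_, rfl⟩
          have hNB : N ⊆ B := by
            rw [hN]
            exact filter_subset _ _
          have hlin : LinSet G x w B N := by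
            rw [hN]
            exact linear_of_surj hx hgen G w v B hvB hdv heq.ge
          have hNcard : N.card = dT G w B v := by
            rw [hN]
            rfl
          have hlt : N.card < L := by
            by_contra hcon
            rw [not_lt] at hcon
            have hR : RRig G x w W N := rrig_of_lin hx hs hl hD (hNB.trans hBW)
              (hlin.mono (Subset.refl _) hBW) (hL.trans hcon)
            have hNN : dT G w N v = N.card := by
              have h2 : N.filter (fun t => t ≠ v ∧ Tri G w v t) = N := by
                apply filter_true_of_mem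
                intro a ha
                rw [hN, mem_filter] at ha
                exact ha.2
              unfold dT
              rw [h2]
            have hsN : s ≤ dT G w N v := by
              rw [hNN, hNcard]
              exact hdv
            have hR2 : RRig G x w W (N ∪ {v}) := hR.attach hx (hNB.trans hBW)
              (singleton_subset_iff.2 hvW) (by
                intro a ha
                rw [mem_singleton] at ha
                rw [ha]
                exact Or.inr hsN)
            have h3 := hY (N ∪ {v}) (union_subset (hNB.trans hBW) (singleton_subset_iff.2 hvW)) hR2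
              (hcon.trans (card_le_card subset_union_left))
            exact (Finset.disjoint_left.1 h3) (mem_union_right _ (mem_singleton_self v)) hvY
          apply hno v hvW hvB
          refine (hmem _).2 ⟨hins, T, D, insert v Z, ?_, hTB.trans (subset_insert v B),
            insert_subset_insert v hZB, ?_, hT, ?_⟩
          · intro a ha
            rw [mem_inter, mem_insert] at ha
            rcases ha.2 with rfl | h
            · simp
            · have := hYB (mem_inter.2 ⟨ha.1, h⟩)
              simp only [mem_union, mem_insert] at this ⊢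
              tauto
          · omega
          · refine hZ.insert v ?_
            refine lt_of_le_of_lt (dT_mono G w hZB v) ?_
            rw [← hNcard]
            exact hlt
        · apply hno v hvW hvB
          refine (hmem _).2 ⟨hins, T, D, Z, ?_, hTB.trans (subset_insert v B),
            hZB.trans (subset_insert v B), ?_, hT, hZ⟩
          · intro a ha
            rw [mem_inter, mem_insert] at ha
            rcases ha.2 with rfl | h
            · exact absurd ha.1 hvY
            · exact hYB (mem_inter.2 ⟨ha.1, h⟩)
          · omega
    · push Not at hcase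
      have hdt := hcase t htW htB
      have htT : t ∉ T := fun h => htB (hTB h)
      apply hno t htW htB
      refine (hmem _).2 ⟨insert_subset htW hBW, insert t T, D, Z, ?_, insert_subset_insert t hTB,
        hZB.trans (subset_insert t B), ?_, ?_, hZ⟩
      · intro a ha
        rw [mem_inter, mem_insert] at ha
        rcases ha.2 with rfl | h
        · simp
        · have := hYB (mem_inter.2 ⟨ha.1, h⟩)
          simp only [mem_union, mem_insert] at this ⊢
          tauto
      · have h1 := Sol_insert_le G x w B t ⊤ (fun v _ => Submodule.mem_top)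
        rw [finrank_top, Module.finrank_fin_fun] at h1
        rw [card_insert_of_notMem htT, Nat.mul_succ]
        omega
      · exact hT.insert t (lt_of_le_of_lt (dT_mono G w hTB t) hdt)
  have hYsub : Y ⊆ T ∪ D ∪ Z := by
    intro a ha
    exact hYB (mem_inter.2 ⟨ha, by rw [hBeq]; exact hYW ha⟩)
  have hc1 : Y.card ≤ T.card + D.card + Z.card := by
    refine (card_le_card hYsub).trans ?_
    refine (card_union_le _ _).trans ?_
    have := card_union_le T D
    omega
  have hTc : T.card ≤ s * l := (hT.card_le (hTB.trans hBW) hD).trans
    (Nat.mul_le_mul_left _ (Nat.sub_le _ _))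
  have hZc : Z.card ≤ L * l := (hZ.card_le (hZB.trans hBW) hD).trans
    (Nat.mul_le_mul_left _ (Nat.sub_le _ _))
  have hDc : D.card ≤ s * (s * l) := by
    have h1 : D.card ≤ s * T.card := by omega
    exact h1.trans (Nat.mul_le_mul_left _ hTc)
  omega

end KalaiRank
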