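import Pool.Agent.Lib.MP_8317a8_co.PL.Sel

set_option autoImplicit false

/-!
# PL-GoodSet: a large set of vertices whose blocks contain almost all of it

Let `n = |U|`, `l = 2^13 s^7`, `h = 2^11 s l^2`, `k0 = n / (4 l)`, `k1 = k0 / (8 l)`,
`b = n / (2^10 l)`.  From `n ≥ 2^90 s^36 = 2^25 s l^5`: `k0 ≥ 2^23 s l^4`, `k1 ≥ 2^20 s l^3`,
`4 l k0 ≤ n < 4 l (k0 + 1) ≤ 8 l k0`, `8 l k1 ≤ k0`.

(a) Let `M0` be the set of the `w ∈ U` having `A ∈ Bs w` with `|(U \ {w}) \ A| < k0`.  If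
`n ≤ 2 |M0|`: `W' = M0`, `e = k0` (`2^14 s^7 + 2^14 s^6 k0 ≤ 2 l + 2 l k0 ≤ n`).

(b) Otherwise `M = U \ M0` has `n ≤ 2 |M|`.  For `w ∈ M` some `B w ∈ Bs w` has at least `k0`
elements (`h3` with `X = U \ {w}`: if not, `n - 1 ≤ l k0 + 5 s l^2`), and its complement in
`U \ {w}` has at least `k0` elements.  Let `r a c` be: `∃ A ∈ Bs a, h < cr G U a A c` and `c ≠ a`.
`out_bad`: for `a ∈ U` at most `b` elements `c ∈ U` with `r a c` (`# * 2^11 s l^2 ≤ 2 s l n`).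
`pair_sel`: `w, w' ∈ M`.  `regs_big` with `k = k0`: `X` and `R` have at least `k0 / 2` elements.
`W'` = the set of `w1 ∈ X` with `¬ r w1 w`, `¬ r w1 w'`, `¬ r w w1`, `¬ r w' w1`,
`¬ Tri G w w' w1`.  Removed are at most `18 b + h` elements (the last condition removes at most
`cr G U w (B w) w' ≤ h`), and `18 b + h ≤ k0 / 4`: so `|W'| ≥ k0 / 4`.  For `w1 ∈ W'` and
`A ∈ Bs w1`: by `no_split` with `k = k1` (`k1 > 3 h` and `k1 |R| > 8 h n`) fewer than `k1` elements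
of `X` lie in `A` or fewer than `k1` elements of `X \ {w1}` lie outside.  If the first alternative
held for all `A ∈ Bs w1`, `h3` with `X \ {w1}` would give `|X| - 1 ≤ l k1 + 5 s l^2`, but
`|X| ≥ k0 / 2 ≥ 4 l k1`.  So some `A ∈ Bs w1` misses fewer than `k1` elements of `X \ {w1}`:
`e = k1` (`4 * (2^13 s^7 + 2^13 s^6 k1) ≤ 4 l + 4 l k1 ≤ k0`).
-/

namespace KalaiRank

open Finset

variable {V : Type*} [DecidableEq V]

/-- The numbers. -/
private theorem params (s n l h k0 k1 b : ℕ) (hs : 1 ≤ s) (hl : l = 2 ^ 13 * s ^ 7)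
    (hh : h = 2 ^ 11 * s * l ^ 2) (hk0 : k0 = n / (4 * l)) (hk1 : k1 = k0 / (8 * l))
    (hb : b = n / (2 ^ 10 * l)) (hn : 2 ^ 90 * s ^ 36 ≤ n) :
    2 * (2 ^ 13 * s ^ 6 * (s + k0)) ≤ n ∧ l * k0 + 5 * s * l ^ 2 + 1 < n ∧
      64 * (h * n) < k0 * k0 ∧ 3 * h < k1 ∧ 16 * (h * n) < k1 * k0 ∧ 4 * (18 * b + h) ≤ k0 ∧
      2 * (l * k1 + 5 * s * l ^ 2 + 1) < k0 ∧ 4 * (2 ^ 13 * s ^ 6 * (s + k1)) ≤ k0 ∧
      32 * b + 32 ≤ n ∧ (∀ m : ℕ, m * h ≤ l * (2 * (s * n)) → m ≤ b) ∧ s ≤ h ∧ 4 ≤ k0 := by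
  have hl1 : 1 ≤ l := by
    rw [hl]
    exact Nat.mul_pos (by norm_num) (pow_pos (by omega) _)
  -- the basic facts
  have e1 : 4 * l * k0 ≤ n := by rw [hk0]; exact Nat.mul_div_le n (4 * l)
  have e2 : n < 4 * l * (k0 + 1) := by
    rw [hk0]; exact Nat.lt_mul_div_succ n (by omega)
  have e3 : 2 ^ 23 * (s * l ^ 4) ≤ k0 := by
    rw [hk0, Nat.le_div_iff_mul_le (by omega)]
    have h1 : 2 ^ 23 * (s * l ^ 4) * (4 * l) = 2 ^ 90 * s ^ 36 := by
      rw [hl]; ring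
    rw [h1]; exact hn
  have e4 : 8 * l * k1 ≤ k0 := by rw [hk1]; exact Nat.mul_div_le k0 (8 * l)
  have e5 : 2 ^ 20 * (s * l ^ 3) ≤ k1 := by
    rw [hk1, Nat.le_div_iff_mul_le (by omega)]
    have h1 : 2 ^ 20 * (s * l ^ 3) * (8 * l) = 2 ^ 23 * (s * l ^ 4) := by ring
    rw [h1]; exact e3
  have e6 : 2 ^ 10 * l * b ≤ n := by rw [hb]; exact Nat.mul_div_le n (2 ^ 10 * l)
  have hh' : h = 2 ^ 11 * (s * l ^ 2) := by rw [hh]; ring
  have m2 : 1 ≤ s * l ^ 2 := Nat.mul_pos hs (pow_pos hl1 _)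
  have m23 : s * l ^ 2 ≤ s * l ^ 3 := Nat.mul_le_mul_left _ (Nat.pow_le_pow_right hl1 (by norm_num))
  have m34 : s * l ^ 3 ≤ s * l ^ 4 := Nat.mul_le_mul_left _ (Nat.pow_le_pow_right hl1 (by norm_num))
  have hk0p : 2 ^ 23 ≤ k0 := by omega
  have hk1p : 2 ^ 20 ≤ k1 := by omega
  have e7 : n < 8 * l * k0 := by
    have h1 : 4 * l * (k0 + 1) ≤ 4 * l * (2 * k0) := Nat.mul_le_mul_left _ (by omega)
    have h2 : 4 * l * (2 * k0) = 8 * l * k0 := by ring
    omega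
  have hs6 : 2 ^ 13 * s ^ 6 ≤ l := by
    rw [hl]; exact Nat.mul_le_mul_left _ (Nat.pow_le_pow_right hs (by norm_num))
  have hs7 : ∀ k, 2 ^ 13 * s ^ 6 * (s + k) ≤ l + l * k := by
    intro k
    have h1 : 2 ^ 13 * s ^ 6 * (s + k) = 2 ^ 13 * s ^ 7 + 2 ^ 13 * s ^ 6 * k := by ring
    have h2 : 2 ^ 13 * s ^ 6 * k ≤ l * k := Nat.mul_le_mul_right _ hs6
    rw [h1, ← hl]; omega
  have hlk0 : l ≤ l * k0 := Nat.le_mul_of_pos_right _ (by omega)
  have hlk1 : l ≤ l * k1 := Nat.le_mul_of_pos_right _ (by omega)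
  have h5 : 5 * s * l ^ 2 = 5 * (s * l ^ 2) := by ring
  have hlk0' : k0 ≤ l * k0 := Nat.le_mul_of_pos_left _ hl1
  have hlk1' : k1 ≤ l * k1 := Nat.le_mul_of_pos_left _ hl1
  have a1 : 4 * l * k0 = 4 * (l * k0) := by ring
  have a2 : 8 * l * k0 = 8 * (l * k0) := by ring
  have a3 : 8 * l * k1 = 8 * (l * k1) := by ring
  rw [a1] at e1
  rw [a2] at e7
  rw [a3] at e4
  -- `h n` against `k0`
  have hhn : 2 ^ 4 * (h * n) < 2 ^ 18 * (s * l ^ 3) * k0 := by
    have h1 : h * n < h * (8 * (l * k0)) := by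
      apply Nat.mul_lt_mul_of_pos_left e7
      rw [hh']; omega
    have h2 : 2 ^ 4 * (h * (8 * (l * k0))) = 2 ^ 18 * (s * l ^ 3) * k0 := by rw [hh']; ring
    omega
  refine ⟨?_, ?_, ?_, ?_, ?_, ?_, ?_, ?_, ?_, ?_, ?_, ?_⟩
  · have := hs7 k0
    omega
  · rw [h5]; omega
  · have h1 : 2 ^ 20 * (s * l ^ 3) * k0 ≤ k0 * k0 := Nat.mul_le_mul_right _ (by omega)
    have h2 : 2 ^ 20 * (s * l ^ 3) * k0 = 4 * (2 ^ 18 * (s * l ^ 3) * k0) := by ring
    omega
  · rw [hh']; omega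
  · have h1 : 2 ^ 20 * (s * l ^ 3) * k0 ≤ k1 * k0 := Nat.mul_le_mul_right _ e5
    have h2 : 2 ^ 20 * (s * l ^ 3) * k0 = 4 * (2 ^ 18 * (s * l ^ 3) * k0) := by ring
    omega
  · have h1 : 2 ^ 10 * l * b < l * (8 * k0) := by
      have : l * (8 * k0) = 8 * (l * k0) := by ring
      omega
    have h2 : l * (2 ^ 10 * b) < l * (8 * k0) := by
      have : l * (2 ^ 10 * b) = 2 ^ 10 * l * b := by ring
      omega
    have h3 := Nat.lt_of_mul_lt_mul_left h2
    rw [hh']; omega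
  · rw [h5]; omega
  · have := hs7 k1
    omega
  · have h1 : b ≤ l * b := Nat.le_mul_of_pos_left _ hl1
    have h2 : 2 ^ 10 * l * b = 2 ^ 10 * (l * b) := by ring
    omega
  · intro m hm
    rw [hb, Nat.le_div_iff_mul_le (by omega)]
    have h1 : (2 * s * l) * (m * (2 ^ 10 * l)) ≤ (2 * s * l) * n := by
      have h2 : (2 * s * l) * (m * (2 ^ 10 * l)) = m * h := by rw [hh']; ring
      have h3 : (2 * s * l) * n = l * (2 * (s * n)) := by ring
      rw [h2, h3]; exact hm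
    exact Nat.le_of_mul_le_mul_left h1 (by positivity)
  · have h1 : s ≤ s * l ^ 2 := Nat.le_mul_of_pos_right _ (pow_pos hl1 _)
    rw [hh']; omega
  · omega

theorem goodset {G : Finset (Finset V)} (hG : Covers G) {s : ℕ} (hs : 1 ≤ s) (U : Finset V)
    (Bs : V → Finset (Finset V)) (hU : 2 ^ 90 * s ^ 36 ≤ U.card)
    (h1 : ∀ w ∈ U, ∀ A ∈ Bs w, A ⊆ U.erase w ∧ Clo G s w (U.erase w) A)
    (h2 : ∀ w ∈ U, (Bs w).card ≤ 2 ^ 13 * s ^ 7)
    (h3 : ∀ w ∈ U, ∀ X ⊆ U.erase w,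
      X.card ≤ ∑ A ∈ Bs w, (X ∩ A).card + 5 * s * (2 ^ 13 * s ^ 7) ^ 2) :
    ∃ W' ⊆ U, ∃ e : ℕ, 2 ^ 13 * s ^ 6 * (s + e) ≤ W'.card ∧
      ∀ w ∈ W', ∃ A ∈ Bs w, ((W'.erase w).filter (fun v => v ∉ A)).card ≤ e := by
  classical
  obtain ⟨l, hl⟩ : ∃ l, l = 2 ^ 13 * s ^ 7 := ⟨_, rfl⟩
  rw [← hl] at h2 h3
  obtain ⟨h, hh⟩ : ∃ h, h = 2 ^ 11 * s * l ^ 2 := ⟨_, rfl⟩
  obtain ⟨k0, hk0⟩ : ∃ k0, k0 = U.card / (4 * l) := ⟨_, rfl⟩
  obtain ⟨k1, hk1⟩ : ∃ k1, k1 = k0 / (8 * l) := ⟨_, rfl⟩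
  obtain ⟨b, hb⟩ : ∃ b, b = U.card / (2 ^ 10 * l) := ⟨_, rfl⟩
  obtain ⟨p1, p2, p3, p4, p5, p6, p7, p8, p9, p10, p11, p12⟩ :=
    params s U.card l h k0 k1 b hs hl hh hk0 hk1 hb hU
  set M0 := U.filter (fun w => ∃ A ∈ Bs w, ((U.erase w) \ A).card < k0) with hM0
  by_cases hcase : U.card ≤ 2 * M0.card
  · refine ⟨M0, filter_subset _ _, k0, by omega, ?_⟩
    intro w hw
    obtain ⟨hwU, A, hA, hlt⟩ := mem_filter.1 hw
    refine ⟨A, hA, le_trans (card_le_card ?_) hlt.le⟩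
    intro y hy
    rw [mem_filter, mem_erase] at hy
    rw [mem_sdiff, mem_erase]
    exact ⟨⟨hy.1.1, (mem_filter.1 hy.1.2).1⟩, hy.2⟩
  · set M := U.filter (fun w => ¬ ∃ A ∈ Bs w, ((U.erase w) \ A).card < k0) with hM
    have hMU : M ⊆ U := filter_subset _ _
    have hMc : U.card ≤ 2 * M.card := by
      have : M0.card + M.card = U.card := card_filter_add_card_filter_not _
      omega
    have hB : ∀ w ∈ M, ∃ B, B ∈ Bs w ∧ k0 ≤ B.card ∧ k0 ≤ ((U.erase w) \ B).card := by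
      intro w hw
      obtain ⟨hwU, hno⟩ := mem_filter.1 hw
      push Not at hno
      have hex : ∃ B ∈ Bs w, k0 ≤ B.card := by
        by_contra hcon
        push Not at hcon
        have h4 := h3 w hwU (U.erase w) (Subset.refl _)
        have h5 : ∑ A ∈ Bs w, (U.erase w ∩ A).card ≤ ∑ _A ∈ Bs w, k0 :=
          sum_le_sum fun A hA => (card_le_card inter_subset_right).trans (hcon A hA).le
        rw [sum_const, smul_eq_mul] at h5
        have h6 := Nat.mul_le_mul_right k0 (h2 w hwU)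
        rw [card_erase_of_mem hwU] at h4
        omega
      obtain ⟨B, hB, hBc⟩ := hex
      exact ⟨B, hB, hBc, hno B hB⟩
    choose! B hB1 hB2 hB3 using hB
    set r : V → V → Prop := fun a c => c ≠ a ∧ ∃ A ∈ Bs a, h < cr G U a A c with hr
    have hout : ∀ a ∈ U, (U.filter (fun c => r a c)).card ≤ b := by
      intro a ha
      apply p10
      refine le_trans (Nat.mul_le_mul_right _ (card_le_card ?_))
        (out_bad (Bs a) (h1 a ha) h l (h2 a ha))
      intro c hc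
      rw [mem_filter] at hc
      rw [mem_filter, mem_erase]
      exact ⟨⟨hc.2.1, hc.1⟩, hc.2.2⟩
    obtain ⟨w, hwM, w', hw'M, hne, hr1, hr2, hin1, hin2⟩ := pair_sel U M r b hMU hMc hout p9
    have hwU := hMU hwM
    have hw'U := hMU hw'M
    -- crossing numbers from the relation
    have hcr : ∀ a c, c ≠ a → ¬ r a c → ∀ A ∈ Bs a, cr G U a A c ≤ h := by
      intro a c hca hn A hA
      by_contra hcon
      rw [not_le] at hcon
      exact hn ⟨hca, A, hA, hcon⟩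
    have e1 := hcr w w' hne.symm hr1 (B w) (hB1 w hwM)
    have e2 := hcr w' w hne hr2 (B w') (hB1 w' hw'M)
    obtain ⟨hBw, hBwc⟩ := h1 w hwU (B w) (hB1 w hwM)
    obtain ⟨hBw', hBwc'⟩ := h1 w' hw'U (B w') (hB1 w' hw'M)
    obtain ⟨hX, hR⟩ := regs_big hG hwU hw'U hne hBw hBwc hBw' hBwc' e1 e2 p11
      (hB2 w hwM) (hB3 w hwM) (hB2 w' hw'M) (hB3 w' hw'M) p3 p12
    set X := reg U w w' (B w) (B w') false false with hXdef
    set R := reg U w w' (B w) (B w') true true with hRdef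
    have hXU : X ⊆ U := filter_subset _ _
    have hXmem : ∀ t ∈ X, t ≠ w ∧ t ≠ w' ∧ ¬ (t ∈ B w ↔ w' ∈ B w) ∧
        ¬ (t ∈ B w' ↔ w ∈ B w') := by
      intro t ht
      obtain ⟨-, t1, t2, t3, t4⟩ := mem_filter.1 ht
      exact ⟨t1, t2, of_decide_eq_false t3, of_decide_eq_false t4⟩
    -- the good part of `X`
    set W' := X.filter (fun a => ¬ r a w ∧ ¬ r a w' ∧ ¬ r w a ∧ ¬ r w' a ∧ ¬ Tri G w w' a)
      with hW'
    have hW'X : W' ⊆ X := filter_subset _ _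
    have hW'c : X.card ≤ W'.card + (18 * b + h) := by
      have hsub : X ⊆ W' ∪ (U.filter (fun a => r a w) ∪ (U.filter (fun a => r a w') ∪
          (U.filter (fun a => r w a) ∪ (U.filter (fun a => r w' a) ∪
            X.filter (fun a => Tri G w w' a))))) := by
        intro a ha
        simp only [mem_union]
        by_cases c1 : r a w
        · exact Or.inr (Or.inl (mem_filter.2 ⟨hXU ha, c1⟩))
        by_cases c2 : r a w'
        · exact Or.inr (Or.inr (Or.inl (mem_filter.2 ⟨hXU ha, c2⟩)))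
        by_cases c3 : r w a
        · exact Or.inr (Or.inr (Or.inr (Or.inl (mem_filter.2 ⟨hXU ha, c3⟩))))
        by_cases c4 : r w' a
        · exact Or.inr (Or.inr (Or.inr (Or.inr (Or.inl (mem_filter.2 ⟨hXU ha, c4⟩)))))
        by_cases c5 : Tri G w w' a
        · exact Or.inr (Or.inr (Or.inr (Or.inr (Or.inr (mem_filter.2 ⟨ha, c5⟩)))))
        · exact Or.inl (mem_filter.2 ⟨ha, c1, c2, c3, c4, c5⟩)
      have t1 := card_le_card hsub
      have t2 := card_union_le W' (U.filter (fun a => r a w) ∪ (U.filter (fun a => r a w') ∪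
          (U.filter (fun a => r w a) ∪ (U.filter (fun a => r w' a) ∪
            X.filter (fun a => Tri G w w' a)))))
      have t3 := card_union_le (U.filter (fun a => r a w)) (U.filter (fun a => r a w') ∪
          (U.filter (fun a => r w a) ∪ (U.filter (fun a => r w' a) ∪
            X.filter (fun a => Tri G w w' a))))
      have t4 := card_union_le (U.filter (fun a => r a w'))
          (U.filter (fun a => r w a) ∪ (U.filter (fun a => r w' a) ∪
            X.filter (fun a => Tri G w w' a)))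
      have t5 := card_union_le (U.filter (fun a => r w a)) (U.filter (fun a => r w' a) ∪
            X.filter (fun a => Tri G w w' a))
      have t6 := card_union_le (U.filter (fun a => r w' a)) (X.filter (fun a => Tri G w w' a))
      have t7 := hout w hwU
      have t8 := hout w' hw'U
      have t9 : (X.filter (fun a => Tri G w w' a)).card ≤ h := by
        refine le_trans (card_le_card ?_) e1
        intro a ha
        obtain ⟨haX, ht⟩ := mem_filter.1 ha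
        obtain ⟨c1, c2, c3, -⟩ := hXmem a haX
        exact mem_filter.2 ⟨hXU haX, c1, c2, c3, ht⟩
      omega
    refine ⟨W', hW'X.trans hXU, k1, by omega, ?_⟩
    intro w1 hw1
    obtain ⟨hw1X, n1, n2, n3, n4, n5⟩ := mem_filter.1 hw1
    have hw1U := hXU hw1X
    obtain ⟨c1, c2, -, -⟩ := hXmem w1 hw1X
    by_contra hcon
    push Not at hcon
    -- every set of `w1` contains few elements of `X`
    have hfew : ∀ A ∈ Bs w1, (X.filter (fun t => t ∈ A)).card < k1 := by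
      intro A hA
      by_contra hge
      rw [not_lt] at hge
      obtain ⟨hA1, hA2⟩ := h1 w1 hw1U A hA
      have hout2 : k1 ≤ ((X.erase w1).filter (fun t => t ∉ A)).card := by
        refine (hcon A hA).le.trans (card_le_card ?_)
        intro y hy
        rw [mem_filter, mem_erase] at hy ⊢
        exact ⟨⟨hy.1.1, hW'X hy.1.2⟩, hy.2⟩
      have e3 := hcr w w1 c1 n3 (B w) (hB1 w hwM)
      have e4 := hcr w' w1 c2 n4 (B w') (hB1 w' hw'M)
      have e5 := hcr w1 w c1.symm n1 A hA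
      have e6 := hcr w1 w' c2.symm n2 A hA
      rcases no_split hG hwU hw'U hne hBw hBwc hBw' hBwc' hA1 hA2 p11 hw1X e1 e2 e3 e4 e5 e6 n5
        hge hout2 with hk | hk
      · omega
      · have q1 : k1 * k0 ≤ k1 * (2 * R.card) := Nat.mul_le_mul_left _ hR
        have q2 : k1 * (2 * R.card) = 2 * (k1 * R.card) := by ring
        have q3 : 8 * h * U.card = 8 * (h * U.card) := by ring
        rw [q3] at hk
        change k1 * R.card ≤ _ at hk
        omega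
    have q1 := h3 w1 hw1U (X.erase w1) (erase_subset_erase _ hXU)
    rw [card_erase_of_mem hw1X] at q1
    have q2 : ∑ A ∈ Bs w1, (X.erase w1 ∩ A).card ≤ ∑ _A ∈ Bs w1, k1 := by
      refine sum_le_sum fun A hA => le_trans (card_le_card ?_) (hfew A hA).le
      intro y hy
      rw [mem_inter, mem_erase] at hy
      exact mem_filter.2 ⟨hy.1.2, hy.2⟩
    rw [sum_const, smul_eq_mul] at q2
    have q3 := Nat.mul_le_mul_right k1 (h2 w1 hw1U)
    omega

end KalaiRank
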