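import Pool.Agent.Lib.MP_8317a8_co.PL.Core2
import Pool.Agent.Lib.MP_8317a8_co.PL.RR

set_option autoImplicit false

/-!
# PL-TStep: a good vertex from a large set of vertices with large rigid parts

As the proof of `good_vertex` (file `Good.lean`) with `Q = W'`, `S w = A w`,
`T w = (U.erase w) \ A w`, `Rigid G x w _` replaced by `RRig G x w (U.erase w) _` and `core` replaced
by `core2`.  Suppose no `w ∈ W'` is good.  Then `T w` is not relatively rigid
(`finrank_Sol_le_two`, `U.erase w = A w ∪ T w`).  Split `W'` into type II (some `C ⊆ T w` with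
`s ≤ |C|` is relatively rigid) and type I; one of them has at least `2^12 s^6 (s + e)` elements.
(`he` gives `he` of `core2` for subsets of `W'`: `w ∉ T w`.  `hcl` of `core2` is `Clo`: an
`a ∈ U.erase w` outside `T w` lies in `A w`.)
-/

namespace KalaiRank

open Finset Module

variable {K : Type*} [Field K] {V : Type*} [DecidableEq V] [Fintype V] {s : ℕ}

theorem tstep {x : V → Fin s → K} (hx : GenPos x) (hs : 1 ≤ s) {G : Finset (Finset V)}
    (hG : Covers G) {U W' : Finset V} {e : ℕ} (hW : W' ⊆ U) (A : V → Finset V)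
    (hA : ∀ w ∈ W', A w ⊆ U.erase w ∧ RRig G x w (U.erase w) (A w) ∧
      Clo G s w (U.erase w) (A w))
    (he : ∀ w ∈ W', ((W'.erase w).filter (fun v => v ∉ A w)).card ≤ e)
    (hc : 2 ^ 13 * s ^ 6 * (s + e) ≤ W'.card) :
    ∃ w ∈ W', finrank K (Sol G x w (U.erase w)) ≤ s * (s + 1) := by
  classical
  by_contra hcon
  push Not at hcon
  have hs6 : 1 ≤ s ^ 6 := Nat.one_le_pow _ _ hs
  have hsW : s ≤ W'.card := by
    refine le_trans ?_ hc
    calc s ≤ s + e := Nat.le_add_right _ _
      _ = 1 * 1 * (s + e) := by ring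
      _ ≤ 2 ^ 13 * s ^ 6 * (s + e) := by gcongr; norm_num
  have hV : s ≤ Fintype.card V := hsW.trans (Finset.card_le_univ W')
  obtain ⟨T, hT⟩ : ∃ T : V → Finset V, T = fun w => (U.erase w) \ A w := ⟨_, rfl⟩
  have hTmem : ∀ w a, a ∈ T w ↔ (a ≠ w ∧ a ∈ U) ∧ a ∉ A w := by
    intro w a
    rw [hT]
    simp only [Finset.mem_sdiff, Finset.mem_erase]
  have hTU : ∀ w ∈ W', T w ⊆ U.erase w := fun w _ a ha => by
    rw [hTmem] at ha
    exact Finset.mem_erase.2 ha.1
  have hTnr : ∀ w ∈ W', ¬ RRig G x w (U.erase w) (T w) := by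
    intro w hw hr
    have h1 : U.erase w = A w ∪ T w := by
      rw [hT]
      simp only
      rw [Finset.union_sdiff_of_subset (hA w hw).1]
    have h2 := hcon w hw
    have h3 := (hA w hw).2.1
    rw [h1] at h2 h3 hr
    have h4 := finrank_Sol_le_two h3 hr
    omega
  -- hypotheses of the core for subsets of `W'`
  have he' : ∀ Q ⊆ W', ∀ w ∈ Q, (Q.filter (fun w' => w' ∈ T w)).card ≤ e := by
    intro Q hQ w hw
    refine le_trans (Finset.card_le_card ?_) (he w (hQ hw))
    intro a ha
    rw [Finset.mem_filter, hTmem] at ha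
    rw [Finset.mem_filter, Finset.mem_erase]
    exact ⟨⟨ha.2.1.1, hQ ha.1⟩, ha.2.2⟩
  have hcl : ∀ w ∈ W', ∀ t ∈ T w,
      ((U.erase w).filter (fun a => a ∉ T w ∧ Tri G w t a)).card < s := by
    intro w hw t ht
    have htT := ht
    rw [hTmem] at ht
    refine lt_of_le_of_lt ?_ ((hA w hw).2.2 t (Finset.mem_erase.2 ht.1) ht.2)
    refine Finset.card_le_card ?_
    intro a ha
    rw [Finset.mem_filter, Finset.mem_erase] at ha
    rw [Finset.mem_filter]
    obtain ⟨haU, haT, htri⟩ := ha
    have haA : a ∈ A w := by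
      by_contra h
      exact haT ((hTmem w a).2 ⟨haU, h⟩)
    refine ⟨haA, ?_, htri⟩
    rintro rfl
    exact haT htT
  -- split into the two types
  obtain ⟨QII, hQII⟩ : ∃ Q, Q = W'.filter
      (fun w => ∃ C ⊆ T w, s ≤ C.card ∧ RRig G x w (U.erase w) C) := ⟨_, rfl⟩
  obtain ⟨QI, hQI⟩ : ∃ Q, Q = W'.filter
      (fun w => ¬ ∃ C ⊆ T w, s ≤ C.card ∧ RRig G x w (U.erase w) C) := ⟨_, rfl⟩
  have hsplit : QII.card + QI.card = W'.card := by
    rw [hQII, hQI]
    exact Finset.card_filter_add_card_filter_not _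
  have hdouble : 2 ^ 13 * s ^ 6 * (s + e) = 2 ^ 12 * s ^ 6 * (s + e) + 2 ^ 12 * s ^ 6 * (s + e) := by
    ring
  rcases le_or_gt (2 ^ 12 * s ^ 6 * (s + e)) QII.card with hcase | hcase
  · -- type II
    have hsubQ : QII ⊆ W' := by
      rw [hQII]
      exact Finset.filter_subset _ _
    have hex : ∀ w ∈ QII, ∃ (C : Finset V) (D : Fin s → V) (t : V),
        C ⊆ T w ∧ RRig G x w (U.erase w) C ∧
        (∀ C', C ⊆ C' → C' ⊆ T w → RRig G x w (U.erase w) C' → C' = C) ∧
        Function.Injective D ∧ (∀ i, D i ∈ C) ∧ t ∈ T w ∧ t ∉ C := by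
      intro w hw
      rw [hQII] at hw
      obtain ⟨hwQ, C0, hC0, hC0c, hC0r⟩ := Finset.mem_filter.1 hw
      obtain ⟨C, hC1, hC2, hC3, hC4⟩ := exists_max_rrig G x w (U.erase w) (T w) C0 hC0 hC0r
      have hCc : s ≤ C.card := hC0c.trans (Finset.card_le_card hC1)
      obtain ⟨D0, hD0, hD0c⟩ := Finset.exists_subset_card_eq hCc
      have e := (Finset.equivFinOfCardEq hD0c).symm
      have hne : ¬ T w ⊆ C := fun h => hTnr w hwQ (by
        have : C = T w := Finset.Subset.antisymm hC2 h
        rwa [this] at hC3)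
      obtain ⟨t, htT, htC⟩ := Finset.not_subset.1 hne
      exact ⟨C, fun i => (e i : V), t, hC2, hC3, hC4,
        fun i j hij => e.injective (Subtype.ext hij), fun i => hD0 (e i).2, htT, htC⟩
    have hne : Nonempty V := by
      rw [← Fintype.card_pos_iff]
      omega
    have hne2 : Nonempty (Fin s → V) := ⟨fun _ => hne.some⟩
    choose! C D t h1 h2 h3 h4 h5 h6 h7 using hex
    obtain ⟨z, hz⟩ : ∃ z : Fin (s + 1) → V → V, z = fun (p : Fin (s + 1)) (w : V) =>
      if hp : p.val < s then D w ⟨p.val, hp⟩ else t w := ⟨_, rfl⟩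
    have hzT : ∀ w ∈ QII, ∀ p, z p w ∈ T w := by
      intro w hw p
      simp only [hz]
      split_ifs with hp
      · exact h1 w hw (h5 w hw _)
      · exact h6 w hw
    obtain ⟨w, hw, Y, hYT, hYc, hYz⟩ := core2 (U := U) (W0 := QII) (s := s) (e := e) hG hs
      (le_refl (s + 1)) (hsubQ.trans hW) T z
      (fun w hw => hTU w (hsubQ hw)) (he' QII hsubQ) (fun w hw => hcl w (hsubQ hw)) hzT hcase
    have hwW := hsubQ hw
    have hYU : Y ⊆ U.erase w := hYT.trans (hTU w hwW)
    have hYr : RRig G x w (U.erase w) Y := (rigid_clique hx hV hYc).rrig hYU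
    have himU : Finset.univ.image (fun p => z p w) ⊆ U.erase w := by
      intro a ha
      rw [Finset.mem_image] at ha
      obtain ⟨p, -, rfl⟩ := ha
      exact hTU w hwW (hzT w hw p)
    have hZr : RRig G x w (U.erase w) (Y ∪ Finset.univ.image (fun p => z p w)) := by
      apply hYr.attach hx hYU himU
      intro a ha
      rw [Finset.mem_image] at ha
      obtain ⟨p, -, rfl⟩ := ha
      exact hYz p
    have hDsub : Finset.univ.image (D w) ⊆ C w ∩ (Y ∪ Finset.univ.image (fun p => z p w)) := by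
      intro a ha
      rw [Finset.mem_image] at ha
      obtain ⟨i, -, rfl⟩ := ha
      rw [Finset.mem_inter, Finset.mem_union]
      refine ⟨h5 w hw i, Or.inr ?_⟩
      rw [Finset.mem_image]
      refine ⟨i.castSucc, Finset.mem_univ _, ?_⟩
      simp only [hz]
      rw [dif_pos (by simp)]
      rfl
    have hDc : (Finset.univ.image (D w)).card = s := by
      rw [Finset.card_image_of_injective _ (h4 w hw), Finset.card_univ, Fintype.card_fin]
    have hglue := (h2 w hw).glue hx hZr (hDc.symm.le.trans (Finset.card_le_card hDsub))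
    have heq := h3 w hw _ Finset.subset_union_left (by
      apply Finset.union_subset (h1 w hw)
      apply Finset.union_subset hYT
      intro a ha
      rw [Finset.mem_image] at ha
      obtain ⟨p, -, rfl⟩ := ha
      exact hzT w hw p) hglue
    apply h7 w hw
    rw [← heq]
    apply Finset.mem_union_right
    apply Finset.mem_union_right
    rw [Finset.mem_image]
    refine ⟨Fin.last s, Finset.mem_univ _, ?_⟩
    simp only [hz]
    rw [dif_neg (by simp)]
  · -- type I
    have hcase2 : 2 ^ 12 * s ^ 6 * (s + e) ≤ QI.card := by omega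
    have hsubQ : QI ⊆ W' := by
      rw [hQI]
      exact Finset.filter_subset _ _
    have hex : ∀ w ∈ QI, ∃ a b : V, a ∈ T w ∧ b ∈ T w ∧ a ≠ b ∧ ¬ Tri G w a b := by
      intro w hw
      have hwQ := hsubQ hw
      by_contra hno
      push Not at hno
      exact hTnr w hwQ ((rigid_clique hx hV
        (fun a ha b hb hab => hno a b ha hb hab)).rrig (hTU w hwQ))
    have hne : Nonempty V := by
      rw [← Fintype.card_pos_iff]
      omega
    choose! a b h1 h2 h3 h4 using hex
    obtain ⟨z, hz⟩ : ∃ z : Fin 2 → V → V, z = fun p w => if p = 0 then a w else b w := ⟨_, rfl⟩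
    have hzT : ∀ w ∈ QI, ∀ p, z p w ∈ T w := by
      intro w hw p
      simp only [hz]
      split_ifs with hp
      · exact h1 w hw
      · exact h2 w hw
    obtain ⟨w, hw, Y, hYT, hYc, hYz⟩ := core2 (U := U) (W0 := QI) (s := s) (e := e) hG hs
      (by omega : 2 ≤ s + 1) (hsubQ.trans hW) T z
      (fun w hw => hTU w (hsubQ hw)) (he' QI hsubQ) (fun w hw => hcl w (hsubQ hw)) hzT hcase2
    have hwW := hsubQ hw
    have hYU : Y ⊆ U.erase w := hYT.trans (hTU w hwW)
    have hnot : ¬ ∃ C ⊆ T w, s ≤ C.card ∧ RRig G x w (U.erase w) C := by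
      rw [hQI] at hw
      exact (Finset.mem_filter.1 hw).2
    have hYr : RRig G x w (U.erase w) Y := (rigid_clique hx hV hYc).rrig hYU
    have hYs : Y.card < s := by
      by_contra h
      push Not at h
      exact hnot ⟨Y, hYT, h, hYr⟩
    have hin : ∀ p, z p w ∈ Y := by
      intro p
      rcases hYz p with h | h
      · exact h
      · exact absurd (h.trans (Finset.card_filter_le _ _)) (not_le.2 hYs)
    have ha : a w ∈ Y := by simpa [hz] using hin 0
    have hb : b w ∈ Y := by simpa [hz] using hin 1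
    exact h4 w hw (hYc _ ha _ hb (h3 w hw))

end KalaiRank
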