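import Pool.Agent.Lib.MP_8317a8_co.PL.Blk
import Pool.Agent.Lib.MP_8317a8_co.PL.GoodSet
import Pool.Agent.Lib.MP_8317a8_co.PL.TStep

set_option autoImplicit false

/-!
# PL-Final: a good vertex in every set of at least `2^90 s^36` vertices

* `caseA`: `I ⊆ U \ {v}` independent in the link of `v`, `|I| ≥ 2^13 s^7`: all triples of `I` are
  edges of `G` (4-set `v, a, b, c`).  For `w ∈ I` the set `I \ {w}` is a clique in the link of `w`,
  hence rigid (`rigid_clique`), `A w` = a maximal relatively rigid subset of `U.erase w` containing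
  it (`exists_max_rrig`), closed by `RRig.attach`; `tstep` with `W' = I`, `e = 0`.
* `caseB`: `goodset` with `Bs w = blks G x w (U.erase w) (3 * s * l)`, `l = 2^13 s^7`
  (`blks_card`, `blk_closed`, `blks_cover`: `s l + s (s l) + 3 s l l ≤ 5 s l^2`), then `tstep`.
* `YSp_poly`: induction on the number of vertices as in `YSp_bound`; for fewer than `2^90 s^36`
  vertices `YSp_uniform`.
-/

namespace KalaiRank

open Finset Module

variable {K : Type*} [Field K] {V : Type*} [DecidableEq V] [Fintype V] {s : ℕ}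

omit [Fintype V] in
/-- A maximal relatively rigid set is closed. -/
private theorem clo_of_max {x : V → Fin s → K} (hx : GenPos x) {G : Finset (Finset V)} {w : V}
    {W A : Finset V} (hA : A ⊆ W) (hr : RRig G x w W A)
    (hmax : ∀ A', A ⊆ A' → A' ⊆ W → RRig G x w W A' → A' = A) : Clo G s w W A := by
  intro v hv hvA
  by_contra hcon
  rw [not_lt] at hcon
  have h1 : RRig G x w W (A ∪ {v}) := hr.attach hx hA (singleton_subset_iff.2 hv) (by
    intro t ht
    rw [mem_singleton] at ht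
    subst ht
    exact Or.inr hcon)
  have h2 := hmax (A ∪ {v}) subset_union_left (union_subset hA (singleton_subset_iff.2 hv)) h1
  apply hvA
  rw [← h2]
  exact mem_union_right _ (mem_singleton_self v)

theorem caseA {x : V → Fin s → K} (hx : GenPos x) (hs : 1 ≤ s) {G : Finset (Finset V)}
    (hG : Covers G) (U I : Finset V) (v : V) (hI : I ⊆ U.erase v)
    (hind : ∀ a ∈ I, ∀ b ∈ I, a ≠ b → ¬ Tri G v a b) (hc : 2 ^ 13 * s ^ 7 ≤ I.card) :
    ∃ w ∈ U, finrank K (Sol G x w (U.erase w)) ≤ s * (s + 1) := by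
  classical
  have hIU : I ⊆ U := hI.trans (erase_subset _ _)
  have hvI : ∀ a ∈ I, v ≠ a := fun a ha => (ne_of_mem_erase (hI ha)).symm
  have hV : s ≤ Fintype.card V := by
    have h1 := card_le_univ I
    have h2 : s ≤ 2 ^ 13 * s ^ 7 := by
      calc s = 1 * s ^ 1 := by ring
        _ ≤ 2 ^ 13 * s ^ 7 := Nat.mul_le_mul (by norm_num) (Nat.pow_le_pow_right hs (by norm_num))
    omega
  have htri : ∀ a ∈ I, ∀ b ∈ I, ∀ c ∈ I, a ≠ b → a ≠ c → b ≠ c → Tri G a b c := by
    intro a ha b hb c hc' hab hac hbc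
    rcases hG v a b c (hvI a ha) (hvI b hb) (hvI c hc') hab hac hbc with h | h | h | h
    · exact absurd h (hind a ha b hb hab)
    · exact absurd h (hind a ha c hc' hac)
    · exact absurd h (hind b hb c hc' hbc)
    · exact h
  have hS : ∀ w ∈ I, ∃ A, I.erase w ⊆ A ∧ A ⊆ U.erase w ∧ RRig G x w (U.erase w) A ∧
      Clo G s w (U.erase w) A := by
    intro w hw
    have h0 : I.erase w ⊆ U.erase w := erase_subset_erase w hIU
    have h1 : Rigid G x w (I.erase w) := by
      apply rigid_clique hx hV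
      intro a ha b hb hab
      rw [mem_erase] at ha hb
      exact htri w hw a ha.2 b hb.2 (Ne.symm ha.1) (Ne.symm hb.1) hab
    obtain ⟨A, hA1, hA2, hA3, hA4⟩ := exists_max_rrig G x w (U.erase w) (U.erase w) (I.erase w) h0
      (h1.rrig h0)
    exact ⟨A, hA1, hA2, hA3, clo_of_max hx hA2 hA3 hA4⟩
  choose! A hA1 hA2 hA3 hA4 using hS
  obtain ⟨w, hw, h⟩ := tstep hx hs hG (U := U) (W' := I) (e := 0) hIU A
    (fun w hw => ⟨hA2 w hw, hA3 w hw, hA4 w hw⟩)
    (fun w hw => by
      rw [Nat.le_zero, card_eq_zero, filter_eq_empty_iff]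
      intro y hy
      rw [not_not]
      exact hA1 w hw hy)
    (by
      have h1 : 2 ^ 13 * s ^ 6 * (s + 0) = 2 ^ 13 * s ^ 7 := by ring
      rw [h1]; exact hc)
  exact ⟨w, hIU hw, h⟩

theorem caseB {x : V → Fin s → K} (hx : GenPos x) (hgen : Generic x) (hs : 1 ≤ s)
    {G : Finset (Finset V)} (hG : Covers G) (U : Finset V) (hU : 2 ^ 90 * s ^ 36 ≤ U.card)
    (hD : ∀ w ∈ U, Dense G w (U.erase w) (2 ^ 13 * s ^ 7)) :
    ∃ w ∈ U, finrank K (Sol G x w (U.erase w)) ≤ s * (s + 1) := by
  classical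
  obtain ⟨l, hl⟩ : ∃ l, l = 2 ^ 13 * s ^ 7 := ⟨_, rfl⟩
  rw [← hl] at hD
  have hl1 : 1 ≤ l := by
    rw [hl]
    exact Nat.mul_pos (by norm_num) (pow_pos (by omega) _)
  have hsl : s ≤ l := by
    rw [hl]
    calc s = 1 * s ^ 1 := by ring
      _ ≤ 2 ^ 13 * s ^ 7 := Nat.mul_le_mul (by norm_num) (Nat.pow_le_pow_right hs (by norm_num))
  have hconst : s * l + s * (s * l) + 3 * s * l * l ≤ 5 * s * l ^ 2 := by
    have h1 : s * l ≤ s * l ^ 2 := Nat.mul_le_mul_left _ (by nlinarith)
    have h2 : s * (s * l) ≤ s * l ^ 2 := Nat.mul_le_mul_left _ (by nlinarith)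
    have h3 : 3 * s * l * l = 3 * (s * l ^ 2) := by ring
    have h4 : 5 * s * l ^ 2 = 5 * (s * l ^ 2) := by ring
    omega
  obtain ⟨W', hW', e, he, hWA⟩ := goodset hG hs U
    (fun w => blks G x w (U.erase w) (3 * s * l)) hU
    (fun w _ A hA => by
      have h := mem_blks.1 hA
      exact ⟨h.1, blk_closed hx h⟩)
    (fun w hw => by
      rw [← hl]
      exact blks_card hx hs hl1 (hD w hw) le_rfl)
    (fun w hw X hX => by
      rw [← hl]
      exact (blks_cover hx hgen hs hl1 (hD w hw) le_rfl X hX).trans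
        (Nat.add_le_add_left hconst _))
  have hWA' : ∀ w ∈ W', ∃ A, A ∈ blks G x w (U.erase w) (3 * s * l) ∧
      ((W'.erase w).filter (fun v => v ∉ A)).card ≤ e := by
    intro w hw
    obtain ⟨A, hA, h⟩ := hWA w hw
    exact ⟨A, hA, h⟩
  choose! A hA hAe using hWA'
  obtain ⟨w, hw, h⟩ := tstep hx hs hG (U := U) (W' := W') (e := e) hW' A
    (fun w hw => by
      have h := mem_blks.1 (hA w hw)
      exact ⟨h.1, h.2.2.1, blk_closed hx h⟩) hAe he
  exact ⟨w, hW' hw, h⟩

theorem good_vertex_poly {x : V → Fin s → K} (hx : GenPos x) (hgen : Generic x) (hs : 1 ≤ s)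
    {G : Finset (Finset V)} (hG : Covers G) (U : Finset V) (hU : 2 ^ 90 * s ^ 36 ≤ U.card) :
    ∃ w ∈ U, finrank K (Sol G x w (U.erase w)) ≤ s * (s + 1) := by
  classical
  by_cases h : ∀ w ∈ U, Dense G w (U.erase w) (2 ^ 13 * s ^ 7)
  · exact caseB hx hgen hs hG U hU h
  · push Not at h
    obtain ⟨v, _, hv⟩ := h
    unfold Dense at hv
    push Not at hv
    obtain ⟨I, hI, hc, hind⟩ := hv
    exact caseA hx hs hG U I v hI hind hc

theorem YSp_poly {x : V → Fin s → K} (hx : GenPos x) (hgen : Generic x) (hs : 1 ≤ s)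
    {G : Finset (Finset V)} (hG : Covers G) (U : Finset V) :
    finrank K (YSp G x U) ≤ s * (s + 1) * U.card + 7 * s ^ 2 * (2 ^ 90 * s ^ 36) := by
  have key : ∀ m : ℕ, ∀ U : Finset V, U.card = m →
      finrank K (YSp G x U) ≤ s * (s + 1) * m + 7 * s ^ 2 * (2 ^ 90 * s ^ 36) := by
    intro m
    induction m with
    | zero =>
      intro U hU
      rw [Finset.card_eq_zero.1 hU, finrank_YSp_empty]
      exact Nat.zero_le _
    | succ m ih =>
      intro U hU
      rcases Nat.lt_or_ge U.card (2 ^ 90 * s ^ 36) with h | h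
      · have h1 := YSp_uniform hx hs hG U
        have h2 := Nat.mul_le_mul_left (7 * s ^ 2) h.le
        omega
      · obtain ⟨v, hv, hgood⟩ := good_vertex_poly hx hgen hs hG U h
        have h1 := finrank_YSp_insert_le G x (U.erase v) v (Finset.notMem_erase v U)
        rw [Finset.insert_erase hv] at h1
        have h2 := ih (U.erase v) (by rw [Finset.card_erase_of_mem hv, hU]; rfl)
        rw [Nat.mul_succ]
        omega
  exact key U.card U rfl

end KalaiRank
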