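import Pool.Agent.Lib.MP_8317a8_co.PL.Defs
import Pool.Agent.Lib.MP_8317a8_co.RankMat

set_option autoImplicit false

/-!
# PL-GenX: the generic vectors are generic

Fix `v` (any `B` with `v ∉ B`).  For `i : Fin s` let `σ i` be the automorphism of
`MvPolynomial (Fin s × Fin n) ℚ` with `X (i, v) ↦ X (i, v) + 1` and all other variables fixed
(`MvPolynomial.aeval`, the inverse is the shift by `-1`), extended to the field of fractions
(`IsFractionRing.ringEquivOfRingEquiv` / `IsFractionRing.map` / `IsLocalization.map`).  Let `F` be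
the subfield of the elements fixed by all `σ i` (`RingHom.eqLocusField`, `iInf`).  It contains
`gx n s b j` for `b ≠ v`.  If `c` has entries in `F` and `∑ j, X (j, v) * c j = 0`, apply `σ i` and
subtract: `c i = 0`.
-/

namespace KalaiRank

open Finset

private noncomputable def shf (n s : ℕ) (v : Fin n) (i : Fin s) (e : ℚ) :
    MvPolynomial (Fin s × Fin n) ℚ →ₐ[ℚ] MvPolynomial (Fin s × Fin n) ℚ :=
  MvPolynomial.aeval fun p => MvPolynomial.X p + if p = (i, v) then MvPolynomial.C e else 0

private theorem shf_X (n s : ℕ) (v : Fin n) (i : Fin s) (e : ℚ) (p : Fin s × Fin n) :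
    shf n s v i e (MvPolynomial.X p) =
      MvPolynomial.X p + if p = (i, v) then MvPolynomial.C e else 0 := by
  rw [shf, MvPolynomial.aeval_X]

private theorem shf_comp (n s : ℕ) (v : Fin n) (i : Fin s) (e : ℚ) :
    (shf n s v i (-e)).comp (shf n s v i e) = AlgHom.id ℚ _ := by
  apply MvPolynomial.algHom_ext
  intro p
  rw [AlgHom.comp_apply, shf_X, map_add, shf_X, AlgHom.id_apply]
  by_cases h : p = (i, v)
  · rw [if_pos h, if_pos h]
    have : shf n s v i (-e) (MvPolynomial.C e) = MvPolynomial.C e := by
      rw [← MvPolynomial.algebraMap_eq, AlgHom.commutes]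
    rw [this, map_neg]
    ring
  · rw [if_neg h, if_neg h, map_zero, add_zero, add_zero]

private theorem shf_inj (n s : ℕ) (v : Fin n) (i : Fin s) (e : ℚ) :
    Function.Injective (shf n s v i e).toRingHom := by
  intro a b h
  have h1 := congrArg (shf n s v i (-e)) h
  have h2 : ∀ a, shf n s v i (-e) ((shf n s v i e).toRingHom a) = a := fun a =>
    DFunLike.congr_fun (shf_comp n s v i e) a
  rwa [h2, h2] at h1

private noncomputable def tau (n s : ℕ) (v : Fin n) (i : Fin s) : KK n s →+* KK n s :=
  IsFractionRing.map (shf_inj n s v i 1)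

private theorem tau_alg (n s : ℕ) (v : Fin n) (i : Fin s) (p : MvPolynomial (Fin s × Fin n) ℚ) :
    tau n s v i (algebraMap _ (KK n s) p) = algebraMap _ (KK n s) (shf n s v i 1 p) := by
  unfold tau IsFractionRing.map
  exact IsLocalization.map_eq (M := nonZeroDivisors (MvPolynomial (Fin s × Fin n) ℚ))
    (T := nonZeroDivisors (MvPolynomial (Fin s × Fin n) ℚ))
    (S := KK n s) (Q := KK n s) (g := (shf n s v i 1).toRingHom) _ p

private theorem tau_gx (n s : ℕ) (v : Fin n) (i : Fin s) (b : Fin n) (j : Fin s) :
    tau n s v i (gx n s b j) = gx n s b j + if (j, b) = (i, v) then 1 else 0 := by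
  have h : gx n s b j = algebraMap (MvPolynomial (Fin s × Fin n) ℚ) (KK n s)
      (MvPolynomial.X (j, b)) := rfl
  rw [h, tau_alg, shf_X, map_add]
  by_cases h : (j, b) = (i, v)
  · rw [if_pos h, if_pos h, map_one, map_one]
  · rw [if_neg h, if_neg h, map_zero]

theorem generic_gx (n s : ℕ) : Generic (gx n s) := by
  intro B v hv
  refine ⟨⨅ i, (tau n s v i).eqLocusField (RingHom.id _), ?_, ?_⟩
  · intro b hb j
    rw [Subfield.mem_iInf]
    intro i
    have hne : ¬ ((j, b) = (i, v)) := by
      intro h
      have h1 : b = v := congrArg Prod.snd h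
      exact hv (h1 ▸ hb)
    show tau n s v i (gx n s b j) = gx n s b j
    rw [tau_gx, if_neg hne, add_zero]
  · intro c hc h0
    funext i
    have hci : ∀ j, tau n s v i (c j) = c j := fun j => by
      have := hc j
      rw [Subfield.mem_iInf] at this
      exact this i
    have h1 : ∑ j, gx n s v j * c j = 0 := h0
    have h2 := congrArg (tau n s v i) h1
    rw [map_sum, map_zero] at h2
    have h3 : ∀ j, tau n s v i (gx n s v j * c j) = gx n s v j * c j + if j = i then c j else 0 := by
      intro j
      rw [map_mul, hci, tau_gx]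
      by_cases h : j = i
      · rw [if_pos h, if_pos (by rw [h])]
        ring
      · rw [if_neg h, if_neg (fun h' => h (congrArg Prod.fst h'))]
        ring
    rw [Finset.sum_congr rfl fun j _ => h3 j, Finset.sum_add_distrib, h1, zero_add,
      Finset.sum_ite_eq' Finset.univ i, if_pos (Finset.mem_univ i)] at h2
    rw [h2]
    rfl

end KalaiRank
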