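import Pool.Agent.Lib.MP_8317a8_co.PL.Defs

set_option autoImplicit false

/-!
# PL-Lin: a vertex whose addition does not lower the dimension forces linearity on its neighbours

Let `v ∉ B` have at least `s` neighbours in `B` (in the link of `w`), and suppose that adding `v`
does not lower the dimension of the solution space.  Then every solution `u` on `B` is linear on
the neighbours of `v` in `B`.

* The restriction `Sol (insert v B) → Sol B` (`restr`, `restr_mem_Sol`) is injective: a solution
  `u` with `u = 0` on `B` has `x y ⬝ u v = x v ⬝ u y = 0` for the `≥ s` neighbours `y ∈ B` of `v`,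
  so `u v = 0` (`GenPos.eq_zero`).  By `hle` it is surjective (`LinearMap.
  injective_iff_surjective_of_finrank_eq_finrank` or a dimension argument).
* Let `F` be the subfield of `hgen B v hv`, `u` a solution on `B` and `φ : K →ₗ[F] F`.  Then
  `y ↦ φ ∘ u y` is a solution on `B` (the coefficients `x a i` lie in `F`); so it extends:
  there is `c` with `x v ⬝ φ (u y) = x y ⬝ c` for all neighbours `y ∈ B` of `v`.
  If `∑ λ y • x y = 0` with `λ y ∈ F` (sum over neighbours) then `x v ⬝ (∑ λ y • φ (u y)) = 0` with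
  an `F`-valued second factor, so `∑ λ y • φ (u y) = 0`, that is `φ (∑ λ y • u y i) = 0` for
  every `φ`, so `∑ λ y • u y = 0` (`Module.forall_dual_apply_eq_zero_iff`).
* Choose `s` neighbours `y_0, …, y_{s-1}`.  The matrix `X` with rows `x y_k` has entries in `F` and
  is invertible (`GenPos`), also over `F`; for every neighbour `y` there are `λ k ∈ F` with
  `x y = ∑ λ k • x y_k`, so `u y = ∑ λ k • u y_k`.  `C` is the matrix with `C (x y_k) = u y_k`.
-/

namespace KalaiRank

open Finset Module

variable {K : Type*} [Field K] {V : Type*} [DecidableEq V] [Fintype V] {s : ℕ}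

private theorem ext_nbr {x : V → Fin s → K} (hx : GenPos x)
    (G : Finset (Finset V)) (w v : V) (B : Finset V) (hd : s ≤ dT G w B v)
    (hle : finrank K (Sol G x w B) ≤ finrank K (Sol G x w (insert v B)))
    (u : V → Fin s → K) (hu : IsSol G x w B u) :
    ∃ c : Fin s → K, ∀ y ∈ B, y ≠ v → Tri G w v y → x v ⬝ᵥ u y = x y ⬝ᵥ c := by
  classical
  let R : Sol G x w (insert v B) →ₗ[K] Sol G x w B :=
    (restr K s B).restrict (fun u hu => restr_mem_Sol hu.2 (subset_insert v B))
  have hR : ∀ z : Sol G x w (insert v B), ((R z : V → Fin s → K)) = restr K s B z.1 :=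
    fun z => rfl
  have hinj : Function.Injective R := by
    rw [injective_iff_map_eq_zero]
    intro z hz
    have h0 : restr K s B z.1 = 0 := by
      rw [← hR, hz]; rfl
    have hzB : ∀ a ∈ B, z.1 a = 0 := fun a ha => by
      have := congrFun h0 a
      rwa [restr_apply, if_pos ha] at this
    have hzv : z.1 v = 0 := by
      apply hx.eq_zero _ hd
      intro a ha
      rw [mem_filter] at ha
      have h1 := z.2.2 v (mem_insert_self v B) a (mem_insert_of_mem ha.1) (Ne.symm ha.2.1) ha.2.2
      rw [hzB a ha.1, dotProduct_zero] at h1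
      exact h1.symm
    apply Subtype.ext
    funext a
    by_cases haB : a ∈ B
    · exact hzB a haB
    · by_cases hav : a = v
      · rw [hav]; exact hzv
      · exact z.2.1 a (by rw [mem_insert]; tauto)
  have hsurj : Function.Surjective R :=
    (LinearMap.injective_iff_surjective_of_finrank_eq_finrank
      (le_antisymm (LinearMap.finrank_le_finrank_of_injective hinj) hle)).1 hinj
  obtain ⟨z, hz⟩ := hsurj ⟨restr K s B u, restr_mem_Sol hu (Subset.refl _)⟩
  refine ⟨z.1 v, fun y hy hyv ht => ?_⟩
  have h1 := z.2.2 v (mem_insert_self v B) y (mem_insert_of_mem hy) (Ne.symm hyv) ht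
  have h2 : z.1 y = u y := by
    have h3 : restr K s B z.1 = restr K s B u := by rw [← hR, hz]
    have h4 := congrFun h3 y
    rwa [restr_apply, restr_apply, if_pos hy, if_pos hy] at h4
  rw [h2] at h1
  exact h1

theorem linear_of_surj {x : V → Fin s → K} (hx : GenPos x) (hgen : Generic x)
    (G : Finset (Finset V)) (w v : V) (B : Finset V) (hv : v ∉ B) (hd : s ≤ dT G w B v)
    (hle : finrank K (Sol G x w B) ≤ finrank K (Sol G x w (insert v B))) :
    LinSet G x w B (B.filter (fun y => y ≠ v ∧ Tri G w v y)) := by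
  classical
  intro u hu
  obtain ⟨F, hF, hFv⟩ := hgen B v hv
  set A := B.filter (fun y => y ≠ v ∧ Tri G w v y) with hA
  have hAc : s ≤ A.card := hd
  obtain ⟨A', hA', hc⟩ := Finset.exists_subset_card_eq hAc
  have e0 := (Finset.equivFinOfCardEq hc).symm
  let e : Fin s → V := fun k => (e0 k : V)
  have heA : ∀ k, e k ∈ A := fun k => hA' (e0 k).2
  have hinj : Function.Injective e := fun i j hij => e0.injective (Subtype.ext hij)
  have hX : IsUnit (Matrix.of (fun i j => x (e i) j)) := hx e hinj
  set X := Matrix.of (fun i j => x (e i) j) with hXdef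
  have hxF : ∀ y ∈ A, ∀ i, x y i ∈ F := fun y hy i => hF y (mem_filter.1 hy).1 i
  let XF : Matrix (Fin s) (Fin s) F := Matrix.of (fun k j => ⟨x (e k) j, hxF _ (heA k) j⟩)
  have hXF : IsUnit XF := by
    rw [Matrix.isUnit_iff_isUnit_det, isUnit_iff_ne_zero] at hX ⊢
    intro h0
    apply hX
    have h1 : X = (algebraMap F K).mapMatrix XF := by ext; rfl
    rw [h1, ← RingHom.map_det, h0, map_zero]
  have hlam : ∀ y ∈ A, ∃ l : Fin s → F, ∀ j, ∑ k, (l k : K) * x (e k) j = x y j := by
    intro y hy
    refine ⟨Matrix.vecMul (fun j => (⟨x y j, hxF y hy j⟩ : F)) XF⁻¹, fun j => ?_⟩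
    have h1 : Matrix.vecMul (Matrix.vecMul (fun j => (⟨x y j, hxF y hy j⟩ : F)) XF⁻¹) XF =
        (fun j => (⟨x y j, hxF y hy j⟩ : F)) := by
      rw [Matrix.vecMul_vecMul, Matrix.nonsing_inv_mul _ ((Matrix.isUnit_iff_isUnit_det _).1 hXF),
        Matrix.vecMul_one]
    have h2 := congrArg (fun z : F => (z : K)) (congrFun h1 j)
    generalize Matrix.vecMul (fun j => (⟨x y j, hxF y hy j⟩ : F)) XF⁻¹ = l at h2 ⊢
    simp only [Matrix.vecMul, dotProduct] at h2
    push_cast at h2
    exact h2
  have key : ∀ y ∈ A, ∀ l : Fin s → F, (∀ j, ∑ k, (l k : K) * x (e k) j = x y j) →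
      ∀ i, u y i = ∑ k, (l k : K) * u (e k) i := by
    intro y hy l hl i
    rw [← sub_eq_zero, ← Module.forall_dual_apply_eq_zero_iff F]
    intro φ
    have hsol : IsSol G x w B (fun b i => ((φ (u b i) : F) : K)) := by
      intro a ha b hb hab ht
      have h1 : ∀ a ∈ B, ∀ z : Fin s → K,
          x a ⬝ᵥ (fun i => ((φ (z i) : F) : K)) = ((φ (x a ⬝ᵥ z) : F) : K) := by
        intro a ha z
        simp only [dotProduct]
        rw [map_sum]
        push_cast
        refine Finset.sum_congr rfl fun i _ => ?_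
        have h2 : x a i * z i = (⟨x a i, hF a ha i⟩ : F) • z i := rfl
        rw [h2, map_smul]
        rfl
      rw [h1 a ha, h1 b hb, hu a ha b hb hab ht]
    obtain ⟨c, hc'⟩ := ext_nbr hx G w v B hd hle _ hsol
    have hnb : ∀ y ∈ A, x v ⬝ᵥ (fun i => ((φ (u y i) : F) : K)) = x y ⬝ᵥ c := by
      intro y hy
      rw [hA, mem_filter] at hy
      exact hc' y hy.1 hy.2.1 hy.2.2
    have hd0 := hFv (fun i => ((φ (u y i) : F) : K) - ∑ k, (l k : K) * ((φ (u (e k) i) : F) : K))
      (fun i => sub_mem (φ (u y i)).2 (sum_mem fun k _ => mul_mem (l k).2 (φ (u (e k) i)).2)) (by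
        have h1 : x v ⬝ᵥ (fun i => ((φ (u y i) : F) : K) -
            ∑ k, (l k : K) * ((φ (u (e k) i) : F) : K)) =
            x v ⬝ᵥ (fun i => ((φ (u y i) : F) : K)) -
              ∑ k, (l k : K) * (x v ⬝ᵥ (fun i => ((φ (u (e k) i) : F) : K))) := by
          simp only [dotProduct, mul_sub, Finset.sum_sub_distrib, Finset.mul_sum]
          congr 1
          rw [Finset.sum_comm]
          refine Finset.sum_congr rfl fun k _ => Finset.sum_congr rfl fun i _ => ?_
          ring
        rw [h1, hnb y hy, Finset.sum_congr rfl (fun k _ => by rw [hnb (e k) (heA k)])]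
        have h2 : x y ⬝ᵥ c = ∑ k, (l k : K) * (x (e k) ⬝ᵥ c) := by
          simp only [dotProduct, Finset.mul_sum]
          rw [Finset.sum_comm]
          refine Finset.sum_congr rfl fun j _ => ?_
          rw [← hl j, Finset.sum_mul]
          refine Finset.sum_congr rfl fun k _ => ?_
          ring
        rw [h2, sub_self])
    have h3 := congrFun hd0 i
    simp only [Pi.zero_apply] at h3
    apply Subtype.ext
    rw [map_sub, map_sum]
    push_cast
    rw [← h3]
    congr 1
    refine Finset.sum_congr rfl fun k _ => ?_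
    have h4 : (l k : K) * u (e k) i = (l k) • u (e k) i := rfl
    rw [h4, map_smul]
    rfl
  set U : Matrix (Fin s) (Fin s) K := Matrix.of (fun k i => u (e k) i) with hU
  refine ⟨(X⁻¹ * U).transpose, fun y hy => ?_⟩
  obtain ⟨l, hl⟩ := hlam y hy
  funext i
  rw [key y hy l hl i, Matrix.mulVec_transpose]
  have h5 : x y = Matrix.vecMul (fun k => (l k : K)) X := by
    funext j
    rw [← hl j]
    rfl
  rw [h5, Matrix.vecMul_vecMul, ← Matrix.mul_assoc,
    Matrix.mul_nonsing_inv _ ((Matrix.isUnit_iff_isUnit_det _).1 hX), Matrix.one_mul]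
  rfl

end KalaiRank
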