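import Pool.Agent.Lib.MP_8317a8_co.PL.Split

set_option autoImplicit false

/-!
# PL-Sel: selection of a typical pair; sizes of the regions

* `pair_sel`: `∑_{b ∈ U} |{a : r a b}| ≤ |U| β`; so at most `|U| / 8` elements `b` have more than
  `8 β` predecessors; the set `M'` of the other elements of `M` has at least `3 |U| / 8` elements.
  Take `w ∈ M'`; in `M'` at most `1 + β + 8 β` elements are equal to `w` or related to `w`.
* `out_bad`: `few_cr` summed over `A ∈ F`.
* `regs_big`: let `P, Q, X, R` be the regions `(false,true)`, `(true,false)`, `(false,false)`,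
  `(true,true)`.  `P ∪ X` is the set of all `t ∈ U \ {w, w'}` on the other side of `B` than `w'`:
  it is `B` (if `w' ∉ B`) or `(U \ {w}) \ B` (if `w' ∈ B`), so `|P| + |X| ≥ k`; `Q ∪ R` is the other
  side without `w'`: `|Q| + |R| ≥ k - 1`; in the same way with `B'`: `|Q| + |X| ≥ k`,
  `|P| + |R| ≥ k - 1`.  By `nested` `|P| |Q| ≤ 4 h |U| < (k/4)^2`, so `4 |P| < k` or `4 |Q| < k`.
-/

namespace KalaiRank

open Finset

variable {V : Type*} [DecidableEq V]

theorem pair_sel (U M : Finset V) (r : V → V → Prop) [DecidableRel r] (b : ℕ) (hM : M ⊆ U)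
    (h1 : U.card ≤ 2 * M.card) (h2 : ∀ a ∈ U, (U.filter (fun c => r a c)).card ≤ b)
    (h3 : 32 * b + 32 ≤ U.card) :
    ∃ w ∈ M, ∃ w' ∈ M, w ≠ w' ∧ ¬ r w w' ∧ ¬ r w' w ∧
      (U.filter (fun a => r a w)).card ≤ 8 * b ∧ (U.filter (fun a => r a w')).card ≤ 8 * b := by
  obtain ⟨D, hD⟩ : ∃ D, D = U.filter (fun c => 8 * b < (U.filter (fun a => r a c)).card) :=
    ⟨_, rfl⟩
  have hsum : ∑ c ∈ U, (U.filter (fun a => r a c)).card ≤ U.card * b := by
    have e1 : ∑ c ∈ U, (U.filter (fun a => r a c)).card =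
        ∑ a ∈ U, (U.filter (fun c => r a c)).card := by
      simp only [card_filter]
      exact sum_comm
    rw [e1]
    calc ∑ a ∈ U, (U.filter (fun c => r a c)).card ≤ ∑ _a ∈ U, b := sum_le_sum h2
      _ = U.card * b := by rw [sum_const, smul_eq_mul]
  have hD1 : D.card * (8 * b + 1) ≤ U.card * b := by
    refine le_trans ?_ hsum
    calc D.card * (8 * b + 1) = ∑ _c ∈ D, (8 * b + 1) := by rw [sum_const, smul_eq_mul]
      _ ≤ ∑ c ∈ D, (U.filter (fun a => r a c)).card := by
          refine sum_le_sum fun c hc => ?_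
          rw [hD, mem_filter] at hc
          exact hc.2
      _ ≤ ∑ c ∈ U, (U.filter (fun a => r a c)).card :=
          sum_le_sum_of_subset (hD ▸ filter_subset _ _)
  have hD2 : 8 * D.card ≤ U.card := by
    rcases Nat.eq_zero_or_pos b with rfl | hb
    · simp only [Nat.mul_zero, Nat.zero_add, Nat.mul_one] at hD1
      omega
    · refine Nat.le_of_mul_le_mul_right ?_ hb
      calc 8 * D.card * b = D.card * (8 * b) := by ring
        _ ≤ D.card * (8 * b + 1) := Nat.mul_le_mul_left _ (Nat.le_succ _)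
        _ ≤ U.card * b := hD1
  have hM1 : M.card ≤ (M \ D).card + D.card := by
    have := le_card_sdiff D M
    omega
  obtain ⟨w, hw⟩ : (M \ D).Nonempty := by
    rw [← card_pos]
    omega
  rw [mem_sdiff] at hw
  have hgood : ∀ c ∈ M, c ∉ D → (U.filter (fun a => r a c)).card ≤ 8 * b := by
    intro c hc hcD
    by_contra hcon
    apply hcD
    rw [hD, mem_filter]
    exact ⟨hM hc, not_le.1 hcon⟩
  have hw8 := hgood w hw.1 hw.2
  have hwb := h2 w (hM hw.1)
  obtain ⟨E, hE⟩ : ∃ E, E = insert w (U.filter (fun c => r w c) ∪ U.filter (fun a => r a w)) :=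
    ⟨_, rfl⟩
  have hE1 : E.card ≤ 9 * b + 1 := by
    rw [hE]
    have e1 := card_insert_le w (U.filter (fun c => r w c) ∪ U.filter (fun a => r a w))
    have e2 := card_union_le (U.filter (fun c => r w c)) (U.filter (fun a => r a w))
    omega
  obtain ⟨w', hw'⟩ : ((M \ D) \ E).Nonempty := by
    rw [← card_pos]
    have := le_card_sdiff E (M \ D)
    omega
  rw [mem_sdiff, mem_sdiff, hE, mem_insert, mem_union, mem_filter, mem_filter] at hw'
  obtain ⟨⟨hw1, hw2⟩, hw3⟩ := hw'
  push Not at hw3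
  refine ⟨w, hw.1, w', hw1, fun h => hw3.1 h.symm, fun h => hw3.2.1 (hM hw1) h,
    fun h => hw3.2.2 (hM hw1) h, hw8, hgood w' hw1 hw2⟩

theorem out_bad {G : Finset (Finset V)} {U : Finset V} {s : ℕ} {w : V} (F : Finset (Finset V))
    (hF : ∀ A ∈ F, A ⊆ U.erase w ∧ Clo G s w (U.erase w) A) (h l : ℕ) (hl : F.card ≤ l) :
    ((U.erase w).filter (fun v => ∃ A ∈ F, h < cr G U w A v)).card * h ≤
      l * (2 * (s * U.card)) := by
  have e1 : ((U.erase w).filter (fun v => ∃ A ∈ F, h < cr G U w A v)).card ≤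
      ∑ A ∈ F, ((U.erase w).filter (fun v => h < cr G U w A v)).card := by
    refine le_trans (card_le_card (t := F.biUnion
      (fun A => (U.erase w).filter (fun v => h < cr G U w A v))) ?_) card_biUnion_le
    intro v hv
    rw [mem_filter] at hv
    obtain ⟨hv1, A, hA, hv2⟩ := hv
    rw [mem_biUnion]
    exact ⟨A, hA, mem_filter.2 ⟨hv1, hv2⟩⟩
  calc ((U.erase w).filter (fun v => ∃ A ∈ F, h < cr G U w A v)).card * h
      ≤ (∑ A ∈ F, ((U.erase w).filter (fun v => h < cr G U w A v)).card) * h :=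
        Nat.mul_le_mul_right h e1
    _ = ∑ A ∈ F, ((U.erase w).filter (fun v => h < cr G U w A v)).card * h := sum_mul _ _ _
    _ ≤ ∑ _A ∈ F, 2 * (s * U.card) :=
        sum_le_sum fun A hA => few_cr (hF A hA).1 (hF A hA).2 h
    _ = F.card * (2 * (s * U.card)) := by rw [sum_const, smul_eq_mul]
    _ ≤ l * (2 * (s * U.card)) := Nat.mul_le_mul_right _ hl

/-- one side -/
private theorem side_card {U B : Finset V} {w w' : V} {k : ℕ} (hw' : w' ∈ U) (hne : w ≠ w')
    (hB : B ⊆ U.erase w) (k1 : k ≤ B.card) (k2 : k ≤ ((U.erase w) \ B).card) :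
    k ≤ (U.filter (fun t => t ≠ w ∧ t ≠ w' ∧ ¬ (t ∈ B ↔ w' ∈ B))).card ∧
      k ≤ (U.filter (fun t => t ≠ w ∧ t ≠ w' ∧ (t ∈ B ↔ w' ∈ B))).card + 1 := by
  have _ := hw'
  have _ := hne
  by_cases h : w' ∈ B
  · constructor
    · refine k2.trans (card_le_card fun t ht => ?_)
      rw [mem_sdiff, mem_erase] at ht
      rw [mem_filter]
      refine ⟨ht.1.2, ht.1.1, ?_, fun h' => ht.2 (h'.2 h)⟩
      rintro rfl
      exact ht.2 h
    · have h2 : (B.erase w').card ≤
          (U.filter (fun t => t ≠ w ∧ t ≠ w' ∧ (t ∈ B ↔ w' ∈ B))).card := by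
        refine card_le_card fun t ht => ?_
        rw [mem_erase] at ht
        have h3 := mem_erase.1 (hB ht.2)
        rw [mem_filter]
        exact ⟨h3.2, h3.1, ht.1, iff_of_true ht.2 h⟩
      have h3 : (B.erase w').card + 1 = B.card := card_erase_add_one h
      omega
  · constructor
    · refine k1.trans (card_le_card fun t ht => ?_)
      have h3 := mem_erase.1 (hB ht)
      rw [mem_filter]
      refine ⟨h3.2, h3.1, ?_, fun h' => h (h'.1 ht)⟩
      rintro rfl
      exact h ht
    · have h2 : (((U.erase w) \ B).erase w').card ≤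
          (U.filter (fun t => t ≠ w ∧ t ≠ w' ∧ (t ∈ B ↔ w' ∈ B))).card := by
        refine card_le_card fun t ht => ?_
        rw [mem_erase, mem_sdiff, mem_erase] at ht
        rw [mem_filter]
        exact ⟨ht.2.1.2, ht.2.1.1, ht.1, iff_of_false ht.2.2 h⟩
      have h3 : ((U.erase w) \ B).card - 1 ≤ (((U.erase w) \ B).erase w').card :=
        pred_card_le_card_erase
      omega

private theorem fib_fst (U B B' : Finset V) (w w' : V) :
    (reg U w w' B B' false true).card + (reg U w w' B B' false false).card =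
        (U.filter (fun t => t ≠ w ∧ t ≠ w' ∧ ¬ (t ∈ B ↔ w' ∈ B))).card ∧
      (reg U w w' B B' true true).card + (reg U w w' B B' true false).card =
        (U.filter (fun t => t ≠ w ∧ t ≠ w' ∧ (t ∈ B ↔ w' ∈ B))).card := by
  constructor
  · rw [← card_filter_add_card_filter_not (s := U.filter
      (fun t => t ≠ w ∧ t ≠ w' ∧ ¬ (t ∈ B ↔ w' ∈ B))) (fun t => t ∈ B' ↔ w ∈ B')]
    unfold reg
    rw [filter_filter, filter_filter]
    congr 2 <;>
    · refine filter_congr fun t _ => ?_
      simp only [decide_eq_true_eq, decide_eq_false_iff_not]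
      tauto
  · rw [← card_filter_add_card_filter_not (s := U.filter
      (fun t => t ≠ w ∧ t ≠ w' ∧ (t ∈ B ↔ w' ∈ B))) (fun t => t ∈ B' ↔ w ∈ B')]
    unfold reg
    rw [filter_filter, filter_filter]
    congr 2 <;>
    · refine filter_congr fun t _ => ?_
      simp only [decide_eq_true_eq, decide_eq_false_iff_not]
      tauto

private theorem fib_snd (U B B' : Finset V) (w w' : V) :
    (reg U w w' B B' true false).card + (reg U w w' B B' false false).card =
        (U.filter (fun t => t ≠ w' ∧ t ≠ w ∧ ¬ (t ∈ B' ↔ w ∈ B'))).card ∧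
      (reg U w w' B B' true true).card + (reg U w w' B B' false true).card =
        (U.filter (fun t => t ≠ w' ∧ t ≠ w ∧ (t ∈ B' ↔ w ∈ B'))).card := by
  constructor
  · rw [← card_filter_add_card_filter_not (s := U.filter
      (fun t => t ≠ w' ∧ t ≠ w ∧ ¬ (t ∈ B' ↔ w ∈ B'))) (fun t => t ∈ B ↔ w' ∈ B)]
    unfold reg
    rw [filter_filter, filter_filter]
    congr 2 <;>
    · refine filter_congr fun t _ => ?_
      simp only [decide_eq_true_eq, decide_eq_false_iff_not]
      tauto
  · rw [← card_filter_add_card_filter_not (s := U.filter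
      (fun t => t ≠ w' ∧ t ≠ w ∧ (t ∈ B' ↔ w ∈ B'))) (fun t => t ∈ B ↔ w' ∈ B)]
    unfold reg
    rw [filter_filter, filter_filter]
    congr 2 <;>
    · refine filter_congr fun t _ => ?_
      simp only [decide_eq_true_eq, decide_eq_false_iff_not]
      tauto

theorem regs_big {G : Finset (Finset V)} (hG : Covers G) {U : Finset V} {s h k : ℕ} {w w' : V}
    (hw : w ∈ U) (hw' : w' ∈ U) (hne : w ≠ w')
    {B B' : Finset V} (hB : B ⊆ U.erase w) (hc : Clo G s w (U.erase w) B)
    (hB' : B' ⊆ U.erase w') (hc' : Clo G s w' (U.erase w') B')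
    (h1 : cr G U w B w' ≤ h) (h2 : cr G U w' B' w ≤ h) (hs : s ≤ h)
    (k1 : k ≤ B.card) (k2 : k ≤ ((U.erase w) \ B).card)
    (k3 : k ≤ B'.card) (k4 : k ≤ ((U.erase w') \ B').card)
    (hk : 64 * (h * U.card) < k * k) (hk4 : 4 ≤ k) :
    k ≤ 2 * (reg U w w' B B' false false).card ∧
      k ≤ 2 * (reg U w w' B B' true true).card := by
  obtain ⟨a1, a2⟩ := side_card hw' hne hB k1 k2
  obtain ⟨b1, b2⟩ := side_card hw hne.symm hB' k3 k4
  obtain ⟨c1, c2⟩ := fib_fst U B B' w w'
  obtain ⟨d1, d2⟩ := fib_snd U B B' w w'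
  have hn := nested hG hw hw' hne hB hc hB' hc' h1 h2 hs
  obtain ⟨p, hp⟩ : ∃ p, p = (reg U w w' B B' false true).card := ⟨_, rfl⟩
  obtain ⟨q, hq⟩ : ∃ q, q = (reg U w w' B B' true false).card := ⟨_, rfl⟩
  obtain ⟨x, hx⟩ : ∃ x, x = (reg U w w' B B' false false).card := ⟨_, rfl⟩
  obtain ⟨r, hr⟩ : ∃ r, r = (reg U w w' B B' true true).card := ⟨_, rfl⟩
  rw [← hp, ← hq] at hn
  rw [← hp, ← hx] at c1
  rw [← hr, ← hq] at c2
  rw [← hq, ← hx] at d1
  rw [← hr, ← hp] at d2
  rw [← hx, ← hr]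
  have hpq : 4 * p < k ∨ 4 * q < k := by
    by_contra hcon
    push Not at hcon
    have h3 : k * k ≤ (4 * p) * (4 * q) := Nat.mul_le_mul hcon.1 hcon.2
    have h4 : (4 * p) * (4 * q) = 16 * (p * q) := by ring
    have h5 : 16 * (4 * h * U.card) = 64 * (h * U.card) := by ring
    omega
  omega

end KalaiRank
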