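import Pool.Agent.Lib.MP_8317a8_co.PL.Cross

set_option autoImplicit false

/-!
# PL-Split: the third set does not split the doubly separated region

Notation: `X = reg U w w' B B' false false`, `R = reg U w w' B B' true true`.
`w1 ∈ X`, so `w1 ∉ B1`.  Suppose both parts of `X \ {w1}` (inside and outside `B1`) have at least
`k` elements.

* Case 1: `w ∈ B1 ↔ w' ∈ B1`.  Let `t ∈ X`, `t ≠ w1`, be on the other side of `B1`; there are at
  least `k` such `t`.  In the 4-set `w, w', w1, t` the triple `w w' w1` is not an edge, so one of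
  `w w' t` (then `t` is counted by `cr G U w B w'`), `w w1 t` (`t` is counted by
  `cr G U w1 B1 w`), `w' w1 t` (`cr G U w1 B1 w'`) is: `k ≤ 3 h`.
* Case 2: `¬ (w ∈ B1 ↔ w' ∈ B1)`.  Apply `nested` to `(w, B), (w1, B1)` and to
  `(w', B'), (w1, B1)`.  The elements `t ≠ w1` of `X` with `¬ (t ∈ B1 ↔ w ∈ B1)` lie in
  `reg U w w1 B B1 true false`, the others in `reg U w' w1 B' B1 true false`; both sets have
  `≥ k` elements.  Every element of `R` lies in `reg U w w1 B B1 false true` or in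
  `reg U w' w1 B' B1 false true`.  So `k |R| ≤ 8 h |U|`.
-/

namespace KalaiRank

open Finset

variable {V : Type*} [DecidableEq V] {G : Finset (Finset V)} {U : Finset V} {s : ℕ}

private theorem iff_of_nn {p q r : Prop} (h1 : ¬ (p ↔ q)) (h2 : ¬ (r ↔ q)) : p ↔ r := by
  by_cases hp : p <;> by_cases hq : q <;> by_cases hr : r <;> simp_all

private theorem not_iff_of {p q r : Prop} (h1 : p ↔ q) (h2 : ¬ (r ↔ q)) : ¬ (p ↔ r) :=
  fun h => h2 (h.symm.trans h1)

theorem no_split (hG : Covers G) {h k : ℕ} {w w' w1 : V} (hw : w ∈ U) (hw' : w' ∈ U)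
    (hne : w ≠ w') {B B' B1 : Finset V} (hB : B ⊆ U.erase w) (hc : Clo G s w (U.erase w) B)
    (hB' : B' ⊆ U.erase w') (hc' : Clo G s w' (U.erase w') B')
    (hB1 : B1 ⊆ U.erase w1) (hc1 : Clo G s w1 (U.erase w1) B1) (hs : s ≤ h)
    (h1 : w1 ∈ reg U w w' B B' false false)
    (e1 : cr G U w B w' ≤ h) (e2 : cr G U w' B' w ≤ h) (e3 : cr G U w B w1 ≤ h)
    (e4 : cr G U w' B' w1 ≤ h) (e5 : cr G U w1 B1 w ≤ h) (e6 : cr G U w1 B1 w' ≤ h)
    (hn : ¬ Tri G w w' w1)
    (k1 : k ≤ ((reg U w w' B B' false false).filter (fun t => t ∈ B1)).card)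
    (k2 : k ≤ (((reg U w w' B B' false false).erase w1).filter (fun t => t ∉ B1)).card) :
    k ≤ 3 * h ∨ k * (reg U w w' B B' true true).card ≤ 8 * h * U.card := by
  have _ := e2
  obtain ⟨X, hX⟩ : ∃ X, X = reg U w w' B B' false false := ⟨_, rfl⟩
  obtain ⟨R, hR⟩ : ∃ R, R = reg U w w' B B' true true := ⟨_, rfl⟩
  rw [← hX] at h1 k1 k2
  rw [← hR]
  have hXm : ∀ t ∈ X, t ∈ U ∧ t ≠ w ∧ t ≠ w' ∧ ¬ (t ∈ B ↔ w' ∈ B) ∧ ¬ (t ∈ B' ↔ w ∈ B') := by
    intro t ht
    rw [hX] at ht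
    unfold reg at ht
    rw [mem_filter, decide_eq_false_iff_not, decide_eq_false_iff_not] at ht
    exact ht
  have hRm : ∀ t ∈ R, t ∈ U ∧ t ≠ w ∧ t ≠ w' ∧ (t ∈ B ↔ w' ∈ B) ∧ (t ∈ B' ↔ w ∈ B') := by
    intro t ht
    rw [hR] at ht
    unfold reg at ht
    rw [mem_filter, decide_eq_true_iff, decide_eq_true_iff] at ht
    exact ht
  obtain ⟨c1, c2, c3, c4, c5⟩ := hXm w1 h1
  have hw1B : w1 ∉ B1 := fun h => (mem_erase.1 (hB1 h)).1 rfl
  -- the two parts of `X` without `w1`
  obtain ⟨Y, hY⟩ : ∃ Y, Y = X.filter (fun t => t ∈ B1) := ⟨_, rfl⟩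
  obtain ⟨Z, hZ⟩ : ∃ Z, Z = (X.erase w1).filter (fun t => t ∉ B1) := ⟨_, rfl⟩
  rw [← hY] at k1
  rw [← hZ] at k2
  have hYm : ∀ t ∈ Y, t ∈ X ∧ t ≠ w1 ∧ t ∈ B1 := by
    intro t ht
    rw [hY, mem_filter] at ht
    exact ⟨ht.1, fun h => hw1B (h ▸ ht.2), ht.2⟩
  have hZm : ∀ t ∈ Z, t ∈ X ∧ t ≠ w1 ∧ t ∉ B1 := by
    intro t ht
    rw [hZ, mem_filter, mem_erase] at ht
    exact ⟨ht.1.2, ht.1.1, ht.2⟩
  -- for every vertex, a part of `X` on the other side of `B1`
  have hside : ∀ a : V, ∃ T : Finset V, k ≤ T.card ∧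
      ∀ t ∈ T, t ∈ X ∧ t ≠ w1 ∧ ¬ (t ∈ B1 ↔ a ∈ B1) := by
    intro a
    by_cases ha : a ∈ B1
    · exact ⟨Z, k2, fun t ht => ⟨(hZm t ht).1, (hZm t ht).2.1,
        fun h => (hZm t ht).2.2 (h.2 ha)⟩⟩
    · exact ⟨Y, k1, fun t ht => ⟨(hYm t ht).1, (hYm t ht).2.1,
        fun h => ha (h.1 (hYm t ht).2.2)⟩⟩
  by_cases hcase : w ∈ B1 ↔ w' ∈ B1
  · left
    obtain ⟨T, hTk, hT⟩ := hside w
    have hcov : T ⊆ (T.filter (fun t => Tri G w w' t) ∪ T.filter (fun t => Tri G w w1 t)) ∪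
        T.filter (fun t => Tri G w' w1 t) := by
      intro t ht
      obtain ⟨htX, htw1, -⟩ := hT t ht
      obtain ⟨-, a2, a3, -, -⟩ := hXm t htX
      rcases hG w w' w1 t hne c2.symm a2.symm c3.symm a3.symm htw1.symm with h | h | h | h
      · exact absurd h hn
      · exact mem_union_left _ (mem_union_left _ (mem_filter.2 ⟨ht, h⟩))
      · exact mem_union_left _ (mem_union_right _ (mem_filter.2 ⟨ht, h⟩))
      · exact mem_union_right _ (mem_filter.2 ⟨ht, h⟩)
    have hcard := card_le_card hcov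
    have f1 := card_union_le (T.filter (fun t => Tri G w w' t) ∪ T.filter (fun t => Tri G w w1 t))
      (T.filter (fun t => Tri G w' w1 t))
    have f2 := card_union_le (T.filter (fun t => Tri G w w' t)) (T.filter (fun t => Tri G w w1 t))
    have g1 : (T.filter (fun t => Tri G w w' t)).card ≤ h := by
      refine le_trans (card_le_card fun t ht => ?_) e1
      obtain ⟨htT, hTr⟩ := mem_filter.1 ht
      obtain ⟨htX, -, -⟩ := hT t htT
      obtain ⟨a1, a2, a3, a4, -⟩ := hXm t htX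
      exact mem_filter.2 ⟨a1, a2, a3, a4, hTr⟩
    have g2 : (T.filter (fun t => Tri G w w1 t)).card ≤ h := by
      refine le_trans (card_le_card fun t ht => ?_) e5
      obtain ⟨htT, hTr⟩ := mem_filter.1 ht
      obtain ⟨htX, b2, b3⟩ := hT t htT
      obtain ⟨a1, a2, -, -, -⟩ := hXm t htX
      exact mem_filter.2 ⟨a1, b2, a2, b3, hTr.swap12⟩
    have g3 : (T.filter (fun t => Tri G w' w1 t)).card ≤ h := by
      refine le_trans (card_le_card fun t ht => ?_) e6
      obtain ⟨htT, hTr⟩ := mem_filter.1 ht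
      obtain ⟨htX, b2, b3⟩ := hT t htT
      obtain ⟨a1, -, a3, -, -⟩ := hXm t htX
      exact mem_filter.2 ⟨a1, b2, a3, fun h => b3 (h.trans hcase.symm), hTr.swap12⟩
    omega
  · right
    have n1 := nested hG hw c1 c2.symm hB hc hB1 hc1 e3 e5 hs
    have n2 := nested hG hw' c1 c3.symm hB' hc' hB1 hc1 e4 e6 hs
    have hk1 : k ≤ (reg U w w1 B B1 true false).card := by
      obtain ⟨T, hTk, hT⟩ := hside w
      refine hTk.trans (card_le_card fun t ht => ?_)
      obtain ⟨htX, b2, b3⟩ := hT t ht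
      obtain ⟨a1, a2, -, a4, -⟩ := hXm t htX
      unfold reg
      rw [mem_filter, decide_eq_true_iff, decide_eq_false_iff_not]
      exact ⟨a1, a2, b2, iff_of_nn a4 c4, b3⟩
    have hk2 : k ≤ (reg U w' w1 B' B1 true false).card := by
      obtain ⟨T, hTk, hT⟩ := hside w'
      refine hTk.trans (card_le_card fun t ht => ?_)
      obtain ⟨htX, b2, b3⟩ := hT t ht
      obtain ⟨a1, -, a3, -, a5⟩ := hXm t htX
      unfold reg
      rw [mem_filter, decide_eq_true_iff, decide_eq_false_iff_not]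
      exact ⟨a1, a3, b2, iff_of_nn a5 c5, b3⟩
    have hcov : R ⊆ reg U w w1 B B1 false true ∪ reg U w' w1 B' B1 false true := by
      intro t ht
      obtain ⟨a1, a2, a3, a4, a5⟩ := hRm t ht
      have htw1 : t ≠ w1 := by
        rintro rfl
        exact c4 a4
      by_cases h : t ∈ B1 ↔ w ∈ B1
      · refine mem_union_left _ ?_
        unfold reg
        rw [mem_filter, decide_eq_false_iff_not, decide_eq_true_iff]
        exact ⟨a1, a2, htw1, not_iff_of a4 c4, h⟩
      · refine mem_union_right _ ?_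
        unfold reg
        rw [mem_filter, decide_eq_false_iff_not, decide_eq_true_iff]
        exact ⟨a1, a3, htw1, not_iff_of a5 c5, iff_of_nn h fun h' => hcase h'.symm⟩
    have hcard := (card_le_card hcov).trans (card_union_le _ _)
    calc k * R.card ≤ k * ((reg U w w1 B B1 false true).card +
          (reg U w' w1 B' B1 false true).card) := Nat.mul_le_mul_left _ hcard
      _ = (reg U w w1 B B1 false true).card * k + (reg U w' w1 B' B1 false true).card * k := by
        ring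
      _ ≤ (reg U w w1 B B1 false true).card * (reg U w w1 B B1 true false).card +
          (reg U w' w1 B' B1 false true).card * (reg U w' w1 B' B1 true false).card :=
        Nat.add_le_add (Nat.mul_le_mul_left _ hk1) (Nat.mul_le_mul_left _ hk2)
      _ ≤ 4 * h * U.card + 4 * h * U.card := Nat.add_le_add n1 n2
      _ = 8 * h * U.card := by ring

end KalaiRank
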